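import Pool.Agent.Helper70_rk1.Fac

/-!
# Algebraic external products
-/

open CategoryTheory AlgebraicGeometry

universe u v

namespace Pool.Agent.Helper70Rk

set_option linter.unusedSectionVars false
set_option linter.unusedVariables false

open Pool.Agent.H914 Pool.Agent.H914.VarClass Pool.Agent.H914.VarClass.Obj
  Pool.Agent.H914.WeilCohomology Pool.Agent.R908

variable {k : Type u} [Field k] {𝒱 : VarClass k} {ops : CycleOps 𝒱}
  {W : WeilCohomology.{u, v} ops} {X Y Z X' Y' : 𝒱.Obj}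

/-- The external product of two classes. -/
noncomputable def ext (a : W.H X) (b : W.H Y) : W.H (X.prod Y) :=
  W.map (fst X Y) a * W.map (snd X Y) b

/-- The external product of the two classes is a combination of classes of cycles. -/
def ER (a : W.H X) (b : W.H Y) : Prop := ext a b ∈ Alg W (X.prod Y)

/-- Homogeneous classes. -/
def Hom (a : W.H X) : Prop := ∃ i, a ∈ W.gr X i

lemma comm_of_hom {a b : W.H X} (ha : Hom a) (hb : Hom b) :
    ∃ s : W.K, s ≠ 0 ∧ a * b = s • (b * a) := by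
  obtain ⟨i, hi⟩ := ha
  obtain ⟨j, hj⟩ := hb
  exact ⟨(-1) ^ (i * j), pow_ne_zero _ (neg_ne_zero.2 one_ne_zero), W.comm hi hj⟩

lemma Hom.map {a : W.H Y} (ha : Hom a) (f : X ⟶ Y) : Hom (W.map f a) := by
  obtain ⟨i, hi⟩ := ha
  exact ⟨i, W.map_mem f hi⟩

lemma Hom.mul {a b : W.H X} (ha : Hom a) (hb : Hom b) : Hom (a * b) := by
  obtain ⟨i, hi⟩ := ha
  obtain ⟨j, hj⟩ := hb
  exact ⟨i + j, W.mul_mem hi hj⟩

lemma Hom.ext {a : W.H X} {b : W.H Y} (ha : Hom a) (hb : Hom b) : Hom (ext a b) :=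
  (ha.map _).mul (hb.map _)

lemma Hom.smul {a : W.H X} (ha : Hom a) (c : W.K) : Hom (c • a) := by
  obtain ⟨i, hi⟩ := ha
  exact ⟨i, Submodule.smul_mem _ _ hi⟩

lemma Hom.one : Hom (1 : W.H X) := ⟨0, W.one_mem X⟩

/-- The span of the operators induced by algebraic correspondences. -/
noncomputable def AOp (W : WeilCohomology.{u, v} ops) (X Y : 𝒱.Obj) :
    Submodule W.K (W.H X →ₗ[W.K] W.H Y) :=
  Submodule.span W.K {F | ∃ (p : ℕ) (z : (X.prod Y).Cycles), (X.prod Y).IsCyc p z ∧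
    F = W.corr (W.cl (X.prod Y) z)}

lemma AOp.cyc {p : ℕ} {z : (X.prod Y).Cycles} (hz : (X.prod Y).IsCyc p z) :
    W.corr (W.cl (X.prod Y) z) ∈ AOp W X Y := Submodule.subset_span ⟨p, z, hz, rfl⟩

lemma mem_aop {F : W.H X →ₗ[W.K] W.H Y} :
    F ∈ AOp W X Y ↔ ∃ c ∈ Alg W (X.prod Y), F = W.corr c := by
  constructor
  · intro h
    induction h using Submodule.span_induction with
    | mem F hF =>
      obtain ⟨p, z, hz, rfl⟩ := hF
      exact ⟨_, Alg.cl hz, rfl⟩
    | zero => exact ⟨0, Submodule.zero_mem _, (W.corr_zero).symm⟩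
    | add F G _ _ hF hG =>
      obtain ⟨c, hc, rfl⟩ := hF
      obtain ⟨d, hd, rfl⟩ := hG
      exact ⟨c + d, Submodule.add_mem _ hc hd, (W.corr_add c d).symm⟩
    | smul r F _ hF =>
      obtain ⟨c, hc, rfl⟩ := hF
      exact ⟨r • c, Submodule.smul_mem _ _ hc, (W.corr_smul r c).symm⟩
  · rintro ⟨c, hc, rfl⟩
    induction hc using Submodule.span_induction with
    | mem c hc =>
      obtain ⟨p, z, hz, rfl⟩ := hc
      exact AOp.cyc hz
    | zero => rw [W.corr_zero]; exact Submodule.zero_mem _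
    | add c d _ _ hc hd => rw [W.corr_add]; exact Submodule.add_mem _ hc hd
    | smul r c _ hc => rw [W.corr_smul]; exact Submodule.smul_mem _ _ hc

lemma AOp.comp {F : W.H X →ₗ[W.K] W.H Y} {G : W.H Y →ₗ[W.K] W.H Z} (hG : G ∈ AOp W Y Z)
    (hF : F ∈ AOp W X Y) : G ∘ₗ F ∈ AOp W X Z := by
  induction hG using Submodule.span_induction with
  | mem G hG =>
    obtain ⟨q, w, hw, rfl⟩ := hG
    induction hF using Submodule.span_induction with
    | mem F hF =>
      obtain ⟨p, z, hz, rfl⟩ := hF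
      rw [← W.corr_comp _ (W.cl_mem hw), ← W.cl_pull, ← W.cl_pull, ← W.cl_mul, ← W.cl_push]
      rw [mem_aop]
      refine ⟨_, ?_, rfl⟩
      rw [W.cl_push, W.cl_mul, W.cl_pull, W.cl_pull]
      exact Alg.push _ (Alg.mul (Alg.map _ (Alg.cl hz)) (Alg.map _ (Alg.cl hw)))
    | zero => rw [LinearMap.comp_zero]; exact Submodule.zero_mem _
    | add F F' _ _ hF hF' => rw [LinearMap.comp_add]; exact Submodule.add_mem _ hF hF'
    | smul r F _ hF => rw [LinearMap.comp_smul]; exact Submodule.smul_mem _ _ hF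
  | zero => rw [LinearMap.zero_comp]; exact Submodule.zero_mem _
  | add G G' _ _ hG hG' => rw [LinearMap.add_comp]; exact Submodule.add_mem _ hG hG'
  | smul r G _ hG => rw [LinearMap.smul_comp]; exact Submodule.smul_mem _ _ hG

lemma AOp.apply {F : W.H X →ₗ[W.K] W.H Y} (hF : F ∈ AOp W X Y) {x : W.H X}
    (hx : x ∈ Alg W X) : F x ∈ Alg W Y := by
  obtain ⟨c, hc, rfl⟩ := mem_aop.1 hF
  rw [corr_apply]
  exact Alg.push _ (Alg.mul hc (Alg.map _ hx))

/-- The operator `x ↦ tr (a x) b`. -/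
noncomputable def rk1 (a : W.H X) (b : W.H Y) : W.H X →ₗ[W.K] W.H Y :=
  ((W.tr X) ∘ₗ LinearMap.mulLeft W.K a).smulRight b

lemma rk1_apply (a : W.H X) (b : W.H Y) (x : W.H X) : rk1 a b x = W.tr X (a * x) • b := rfl

/-- The operator induced by an external product. -/
lemma corr_ext {a : W.H X} {b : W.H Y} (ha : Hom a) (hb : Hom b) :
    ∃ s : W.K, s ≠ 0 ∧ W.corr (ext a b) = s • rk1 a b := by
  obtain ⟨i, hi⟩ := ha
  obtain ⟨j, hj⟩ := hb
  refine ⟨(-1) ^ (j * (2 * X.dim - i)), pow_ne_zero _ (neg_ne_zero.2 one_ne_zero), ?_⟩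
  apply gr_ext (W.isInternal X)
  intro l x hx
  rw [corr_apply, ext, mul_assoc, W.comm (W.map_mem (snd X Y) hj) (W.map_mem (fst X Y) hx),
    mul_smul_comm, map_smul, ← mul_assoc, ← map_mul, W.push_snd, LinearMap.smul_apply, rk1_apply]
  by_cases h : i + l = 2 * X.dim
  · have e : 2 * X.dim - i = l := by omega
    rw [e]
  · rw [W.tr_eq_zero (W.mul_mem hi hx) h, zero_smul, smul_zero, smul_zero]

lemma er_iff {a : W.H X} {b : W.H Y} (ha : Hom a) (hb : Hom b) :
    ER a b ↔ rk1 a b ∈ AOp W X Y := by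
  obtain ⟨s, hs, e⟩ := corr_ext ha hb
  constructor
  · intro h
    have h1 : s • rk1 a b ∈ AOp W X Y := by
      rw [← e, mem_aop]
      exact ⟨_, h, rfl⟩
    have h2 := Submodule.smul_mem _ s⁻¹ h1
    rwa [smul_smul, inv_mul_cancel₀ hs, one_smul] at h2
  · intro h
    obtain ⟨c, hc, h1⟩ := mem_aop.1 h
    rw [h1, ← W.corr_smul] at e
    have h2 : ext a b = s • c := by
      rw [← sub_eq_zero]
      apply corr_inj'
      have h3 : W.corr (ext a b - s • c) + W.corr (s • c) = W.corr (ext a b) := by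
        rw [← W.corr_add, sub_add_cancel]
      rw [e] at h3
      exact add_eq_right.1 h3
    rw [ER, h2]
    exact Submodule.smul_mem _ _ hc

/-- The composite of two operators of rank one. -/
lemma ER.comp {a : W.H X} {b c : W.H Y} {d : W.H Z} (ha : Hom a) (hb : Hom b) (hc : Hom c)
    (hd : Hom d) (h : ER a b) (h' : ER c d) (ht : W.tr Y (c * b) ≠ 0) : ER a d := by
  rw [er_iff ha hb] at h
  rw [er_iff hc hd] at h'
  rw [er_iff ha hd]
  have h1 := AOp.comp h' h
  have h2 : rk1 c d ∘ₗ rk1 a b = W.tr Y (c * b) • rk1 a d := by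
    ext x
    rw [LinearMap.comp_apply, rk1_apply, rk1_apply, LinearMap.smul_apply, rk1_apply,
      mul_smul_comm, map_smul, smul_eq_mul, smul_smul, mul_comm]
  rw [h2] at h1
  have h3 := Submodule.smul_mem _ (W.tr Y (c * b))⁻¹ h1
  rwa [smul_smul, inv_mul_cancel₀ ht, one_smul] at h3

/-- The image of an algebraic class under an operator of rank one. -/
lemma ER.app {a : W.H X} {b : W.H Y} (ha : Hom a) (hb : Hom b) (h : ER a b) {x : W.H X}
    (hx : x ∈ Alg W X) (ht : W.tr X (a * x) ≠ 0) : b ∈ Alg W Y := by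
  rw [er_iff ha hb] at h
  have h1 := AOp.apply h hx
  rw [rk1_apply] at h1
  have h3 := Submodule.smul_mem _ (W.tr X (a * x))⁻¹ h1
  rwa [smul_smul, inv_mul_cancel₀ ht, one_smul] at h3

/-- The image of the second class under an algebraic operator. -/
lemma ER.op {a : W.H X} {b : W.H Y} (ha : Hom a) (hb : Hom b) (h : ER a b)
    {F : W.H Y →ₗ[W.K] W.H Z} (hF : F ∈ AOp W Y Z) (hFb : Hom (F b)) : ER a (F b) := by
  rw [er_iff ha hb] at h
  rw [er_iff ha hFb]
  have h2 : F ∘ₗ rk1 a b = rk1 a (F b) := by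
    ext x
    rw [LinearMap.comp_apply, rk1_apply, map_smul, rk1_apply]
  rw [← h2]
  exact AOp.comp hF h

/-- Transposition. -/
lemma ER.swap {a : W.H X} {b : W.H Y} (ha : Hom a) (hb : Hom b) (h : ER a b) : ER b a := by
  have h1 := Alg.map (Obj.lift (snd Y X) (fst Y X)) h
  rw [ext, map_mul, ← W.map_comp, ← W.map_comp, Obj.lift_fst, Obj.lift_snd] at h1
  obtain ⟨s, hs, e⟩ := comm_of_hom (hb.map (fst Y X)) (ha.map (snd Y X))
  rw [ER, ext, e]
  exact Submodule.smul_mem _ _ h1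

/-- External products. -/
lemma ER.prod {a : W.H X} {b : W.H Y} {c : W.H X'} {d : W.H Y'} (hb : Hom b) (hc : Hom c)
    (h : ER a b) (h' : ER c d) : ER (ext a c) (ext b d) := by
  have h1 := Alg.map (Obj.lift (fst (X.prod X') (Y.prod Y') ≫ fst X X')
    (snd (X.prod X') (Y.prod Y') ≫ fst Y Y')) h
  have h2 := Alg.map (Obj.lift (fst (X.prod X') (Y.prod Y') ≫ snd X X')
    (snd (X.prod X') (Y.prod Y') ≫ snd Y Y')) h'
  rw [ext, map_mul, ← W.map_comp, ← W.map_comp, Obj.lift_fst, Obj.lift_snd] at h1 h2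
  obtain ⟨s, hs, e⟩ := comm_of_hom (hc.map (fst (X.prod X') (Y.prod Y') ≫ snd X X'))
    (hb.map (snd (X.prod X') (Y.prod Y') ≫ fst Y Y'))
  have h3 : ext (ext a c) (ext b d) =
      s • ((W.map (fst (X.prod X') (Y.prod Y') ≫ fst X X') a *
        W.map (snd (X.prod X') (Y.prod Y') ≫ fst Y Y') b) *
      (W.map (fst (X.prod X') (Y.prod Y') ≫ snd X X') c *
        W.map (snd (X.prod X') (Y.prod Y') ≫ snd Y Y') d)) := by
    rw [ext, ext, ext, map_mul, map_mul, ← W.map_comp, ← W.map_comp, ← W.map_comp, ← W.map_comp]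
    rw [mul_assoc, ← mul_assoc (W.map _ c), e, smul_mul_assoc, mul_smul_comm, mul_assoc, mul_assoc]
  rw [ER, h3]
  exact Submodule.smul_mem _ _ (Alg.mul h1 h2)

/-- The trace of products of external products. -/
lemma tr_ext {a c : W.H X} {b d : W.H Y} (hb : Hom b) (hc : Hom c) :
    ∃ s : W.K, s ≠ 0 ∧ W.tr (X.prod Y) (ext a b * ext c d) =
      s * (W.tr X (a * c) * W.tr Y (b * d)) := by
  obtain ⟨s, hs, e⟩ := comm_of_hom (hb.map (snd X Y)) (hc.map (fst X Y))
  refine ⟨s, hs, ?_⟩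
  rw [ext, ext, mul_assoc, ← mul_assoc (W.map _ b), e, smul_mul_assoc, mul_smul_comm, map_smul,
    mul_assoc, ← mul_assoc, ← map_mul, ← map_mul, W.tr_prod, smul_eq_mul]

end Pool.Agent.Helper70Rk
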