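import Pool.Agent.Helper70_rk1.NumDefs

/-!
# Relations between the Hodge types of the conjugates of an eigenline: definitions
-/

namespace Pool.Agent.Helper70Rk

/-- The integers `a z` satisfy the relation `∑ a z · e (τ z) = 0`, the sum over the `z` in `R`, for all
automorphisms `τ` of the field of complex numbers. -/
def IsRel (R : Finset ℂ) (e : ℂ → ℤ) (a : ℂ → ℤ) : Prop :=
  ∀ τ : ℂ ≃+* ℂ, ∑ z ∈ R, a z * e (τ z) = 0

/-- There are no real numbers in `R`, and for every relation `a` there is an odd number of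
automorphisms `τ i` such that the sum of the conjugates `a ∘ τ i` is symmetric under complex
conjugation. -/
def OddSym (R : Finset ℂ) (e : ℂ → ℤ) : Prop :=
  (∀ z ∈ R, starRingEnd ℂ z ≠ z) ∧
    ∀ a : ℂ → ℤ, IsRel R e a → ∃ (r : ℕ) (τ : Fin r → (ℂ ≃+* ℂ)), Odd r ∧
      ∀ z ∈ R, ∑ i, a (τ i z) = ∑ i, a (τ i (starRingEnd ℂ z))

/-- The numbers `e z` for the `z` in `R` are odd multiples of the same power of two. -/
def SameParity (R : Finset ℂ) (e : ℂ → ℤ) : Prop :=
  ∃ s : ℕ, ∀ z ∈ R, ∃ t : ℤ, Odd t ∧ e z = 2 ^ s * t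

/-- The condition on the numbers `R` and on their number `2 g`: the numbers in `R` are conjugate, they
generate a totally real field or a CM field, and `g` is odd and a prime power, or `g` is odd and the
group `galPerm R` is solvable, or the Sylow `2`-subgroups of this group are cyclic. -/
def GoodEigs (R : Finset ℂ) : Prop :=
  Conjugate R ∧ ConjCentral R ∧
    ((∃ g : ℕ, R.card = 2 * g ∧ Odd g ∧ (IsPrimePow g ∨ Group.IsSolvable (galPerm R))) ∨
      ∃ P : Sylow 2 (galPerm R), IsCyclic P)

end Pool.Agent.Helper70Rk
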