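import Pool.Agent.Helper70_rk1.Arith
import Pool.Agent.Helper70_rk2.NumDefs2

/-!
# Groups of odd order and relations, general weights
-/

namespace Pool.Agent.Helper70Rk

set_option linter.unusedSectionVars false
set_option linter.unusedVariables false

/-- **Groups of odd order annihilate the relations.** -/
theorem oddSum_of {R : Finset ℂ} {ε : ℂ → ℤ} (hc : ConjCentral R)
    (hconj : ∀ z ∈ R, starRingEnd ℂ z ∈ R) (hε : ∀ z ∈ R, ε (starRingEnd ℂ z) = - ε z)
    (hεodd : ∀ z ∈ R, Odd (ε z)) (hH : OddTransitive R) (a : ℂ → ℤ) (ha : IsRel R ε a) :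
    ∃ (r : ℕ) (τ : Fin r → (ℂ ≃+* ℂ)), Odd r ∧
      ∀ z ∈ R, ∑ i, a (τ i z) = ∑ i, a (τ i (starRingEnd ℂ z)) := by
  classical
  obtain ⟨H, hHG, hodd, htr⟩ := hH
  have hfin : Finite H := inferInstance
  have : Fintype H := Fintype.ofFinite H
  choose σ hσ using fun h : H => hHG h.2
  have hσR : ∀ (h : H) (z : R), σ h z = (h.1 z : ℂ) := fun h z => (hσ h z).symm
  let e := (Fintype.equivFin H).symm
  refine ⟨Fintype.card H, fun i => σ (e i), ?_, ?_⟩
  · rwa [← Nat.card_eq_fintype_card]
  -- complex conjugation on the set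
  let κ : R → R := fun z => ⟨starRingEnd ℂ z, hconj z z.2⟩
  have hκκ : ∀ z, κ (κ z) = z := fun z => Subtype.ext (Complex.conj_conj _)
  have hκh : ∀ (h : H) (z : R), κ (h.1 z) = h.1 (κ z) := by
    intro h z
    apply Subtype.ext
    change starRingEnd ℂ (h.1 z : ℂ) = (h.1 (κ z) : ℂ)
    rw [← hσR, ← hσR]
    exact (hc (σ h) z z.2).symm
  -- the sum of the conjugates
  let b : R → ℤ := fun z => ∑ h : H, a (h.1 z : ℂ)
  have hb : ∀ z : R, ∑ i, a (σ (e i) z) = b z := by
    intro z
    rw [e.sum_comp (fun h : H => a (σ h z))]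
    exact Finset.sum_congr rfl fun h _ => by rw [hσR]
  have hinv : ∀ (g : H) (z : R), b (g.1 z) = b z := by
    intro g z
    exact Fintype.sum_equiv (Equiv.mulRight g) _ _ fun h => rfl
  have hrel : ∑ w : R, b w * ε w = 0 := by
    have h1 : ∀ h : H, ∑ w : R, a (h.1 w : ℂ) * ε w = 0 := by
      intro h
      have h2 := ha (σ h).symm
      rw [← Finset.sum_coe_sort,
        ← Equiv.sum_comp h.1 (fun i : R => a (i : ℂ) * ε ((σ h).symm (i : ℂ)))] at h2
      rw [← h2]
      refine Finset.sum_congr rfl fun w _ => ?_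
      rw [← hσR, RingEquiv.symm_apply_apply]
    calc ∑ w : R, b w * ε w = ∑ w : R, ∑ h : H, a (h.1 w : ℂ) * ε w :=
          Finset.sum_congr rfl fun w _ => Finset.sum_mul _ _ _
      _ = ∑ h : H, ∑ w : R, a (h.1 w : ℂ) * ε w := Finset.sum_comm
      _ = 0 := Finset.sum_eq_zero fun h _ => h1 h
  have key : ∀ z : R, b z = b (κ z) := by
    intro z
    by_contra hne
    have h1 : ∀ w : R, b w = b z ↔ ∃ h ∈ H, h z = w := by
      intro w
      constructor
      · intro hw
        obtain ⟨h, hh, h2 | h2⟩ := htr z w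
        · exact ⟨h, hh, Subtype.ext h2⟩
        · exfalso
          apply hne
          have h3 : h z = κ w := Subtype.ext h2
          have h4 : κ (h z) = w := by rw [h3, hκκ]
          rw [← hw, ← h4]
          rw [show κ (h z) = h (κ z) from hκh ⟨h, hh⟩ z]
          exact hinv ⟨h, hh⟩ (κ z)
      · rintro ⟨h, hh, rfl⟩
        exact hinv ⟨h, hh⟩ z
    have h2 : ∀ w : R, ¬ (b w = b z) → b w = b (κ z) := by
      intro w hw
      obtain ⟨h, hh, h2 | h2⟩ := htr z w
      · exact absurd ((h1 w).2 ⟨h, hh, Subtype.ext h2⟩) hw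
      · have h3 : h z = κ w := Subtype.ext h2
        have h4 : κ (h z) = w := by rw [h3, hκκ]
        rw [← h4, show κ (h z) = h (κ z) from hκh ⟨h, hh⟩ z]
        exact hinv ⟨h, hh⟩ (κ z)
    have h3 : ∀ w : R, b w = b z → b (κ w) = b (κ z) := by
      intro w hw
      obtain ⟨h, hh, rfl⟩ := (h1 w).1 hw
      rw [show κ (h z) = h (κ z) from hκh ⟨h, hh⟩ z]
      exact hinv ⟨h, hh⟩ (κ z)
    have h4 : ∀ w : R, ¬ (b w = b z) → b (κ w) = b z := by
      intro w hw
      obtain ⟨h, hh, h2 | h2⟩ := htr z w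
      · exact absurd ((h1 w).2 ⟨h, hh, Subtype.ext h2⟩) hw
      · have h3 : h z = κ w := Subtype.ext h2
        rw [← h3]
        exact hinv ⟨h, hh⟩ z
    set F : Finset R := Finset.univ.filter fun w => b w = b z with hF
    have hFodd : Odd F.card := by
      have h5 : Nat.card (MulAction.orbit H z) = F.card := by
        have h6 : MulAction.orbit H z = (F : Set R) := by
          ext w
          rw [MulAction.mem_orbit_iff, Finset.mem_coe, hF, Finset.mem_filter]
          constructor
          · rintro ⟨h, rfl⟩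
            exact ⟨Finset.mem_univ _, (h1 _).2 ⟨h.1, h.2, rfl⟩⟩
          · rintro ⟨-, hw⟩
            obtain ⟨h, hh, h7⟩ := (h1 w).1 hw
            exact ⟨⟨h, hh⟩, h7⟩
        rw [h6]
        simp
      rw [← h5]
      obtain ⟨c, hc'⟩ := orbit_dvd H z
      rw [hc'] at hodd
      exact (Nat.odd_mul.1 hodd).1
    have hsum := odd_sum F (fun w => ε w) (fun w => hεodd w w.2) hFodd
    apply hsum
    have h5 : ∑ w : R, b w * ε w = ∑ w ∈ F, b z * ε w +
        ∑ w ∈ F, b (κ z) * ε (κ w) := by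
      rw [← Finset.sum_filter_add_sum_filter_not Finset.univ (fun w : R => b w = b z)]
      congr 1
      · exact Finset.sum_congr rfl fun w hw => by rw [(Finset.mem_filter.1 hw).2]
      · refine Finset.sum_bij' (fun w _ => κ w) (fun w _ => κ w) ?_ ?_ ?_ ?_ ?_
        · intro w hw
          exact Finset.mem_filter.2 ⟨Finset.mem_univ _, h4 w (Finset.mem_filter.1 hw).2⟩
        · intro w hw
          refine Finset.mem_filter.2 ⟨Finset.mem_univ _, ?_⟩
          rw [h3 w (Finset.mem_filter.1 hw).2]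
          exact fun h => hne h.symm
        · intro w _; exact hκκ w
        · intro w _; exact hκκ w
        · intro w hw
          rw [h2 w (Finset.mem_filter.1 hw).2, hκκ]
    have h6 : ∀ w : R, ε (κ w) = - ε w := fun w => hε w w.2
    rw [hrel, ← Finset.mul_sum, ← Finset.mul_sum, Finset.sum_congr rfl fun w _ => h6 w,
      Finset.sum_neg_distrib, mul_neg, ← sub_eq_add_neg, ← sub_mul] at h5
    exact (mul_eq_zero.1 h5.symm).resolve_left (sub_ne_zero.2 hne)
  intro z hz
  rw [hb ⟨z, hz⟩, key ⟨z, hz⟩]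
  exact (hb (κ ⟨z, hz⟩)).symm

end Pool.Agent.Helper70Rk
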