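import Pool.Agent.Helper70_rk1.Cyc
import Pool.Agent.Helper70_rk2.Arith2

/-!
# Cyclic groups and relations, general weights
-/

namespace Pool.Agent.Helper70Rk

set_option linter.unusedSectionVars false
set_option linter.unusedVariables false

/-- If the group of the permutations of `R` induced by automorphisms is transitive and has a normal
subgroup of odd order with a cyclic quotient, then all relations are annihilated by odd sums. -/
theorem oddSum_quot {R : Finset ℂ} {ε : ℂ → ℤ} (hc : ConjCentral R)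
    (hconj : ∀ z ∈ R, starRingEnd ℂ z ∈ R)
    (hε : ∀ z ∈ R, ε (starRingEnd ℂ z) = - ε z) (hεodd : ∀ z ∈ R, Odd (ε z))
    (htr : ∀ z w : R, ∃ π ∈ galPerm R, π z = w) (H : Subgroup (galPerm R)) (hHn : H.Normal)
    (hodd : Odd (Nat.card H)) (hcyc : IsCyclic (galPerm R ⧸ H)) (a : ℂ → ℤ) (ha : IsRel R ε a) :
    ∃ (r : ℕ) (τ : Fin r → (ℂ ≃+* ℂ)), Odd r ∧
      ∀ z ∈ R, ∑ i, a (τ i z) = ∑ i, a (τ i (starRingEnd ℂ z)) := by
  classical
  rcases R.eq_empty_or_nonempty with rfl | ⟨z₁, hz₁⟩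
  · exact ⟨1, fun _ => RingEquiv.refl ℂ, odd_one, fun z hz => absurd hz (Finset.notMem_empty z)⟩
  obtain ⟨x, hx⟩ := hcyc.exists_generator
  obtain ⟨γ, rfl⟩ := QuotientGroup.mk_surjective x
  set z₀ : R := ⟨z₁, hz₁⟩ with hz₀
  set γ' : galPerm R ⧸ H := (γ : galPerm R ⧸ H) with hγ'
  set n := orderOf γ' with hn
  have : Fintype (galPerm R) := Fintype.ofFinite _
  have : Fintype H := Fintype.ofFinite _
  have hn0 : 0 < n := orderOf_pos γ'
  -- decomposition
  have hpow : ∀ l : ℕ, ((γ ^ l : galPerm R) : galPerm R ⧸ H) = γ' ^ l := fun l => rfl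
  have hdec : ∀ g : galPerm R, ∃ l < n, ∃ h : H, g = h * γ ^ l := by
    intro g
    obtain ⟨l, hl⟩ := (mem_powers_iff_mem_zpowers (x := γ') (y := (g : galPerm R ⧸ H))).2 (hx g)
    refine ⟨l % n, Nat.mod_lt _ hn0, ?_⟩
    have h1 : γ' ^ (l % n) = (g : galPerm R ⧸ H) := by
      rw [hn, pow_mod_orderOf]
      exact hl
    rw [← hpow, QuotientGroup.eq] at h1
    have h2 : g * (γ ^ (l % n))⁻¹ ∈ H := hHn.mem_comm h1
    exact ⟨⟨_, h2⟩, by rw [Subgroup.coe_mk, inv_mul_cancel_right]⟩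
  have hmem : ∀ (h : H) (l : ℕ), ((h * γ ^ l : galPerm R) : galPerm R ⧸ H) = γ' ^ l := by
    intro h l
    rw [← hpow, QuotientGroup.eq]
    refine hHn.mem_comm ?_
    rw [mul_inv_rev, ← mul_assoc, mul_inv_cancel, one_mul]
    exact H.inv_mem h.2
  have hbij : Function.Bijective
      (fun p : Fin n × H => ((p.2 : galPerm R) * γ ^ (p.1 : ℕ) : galPerm R)) := by
    constructor
    · rintro ⟨l, h⟩ ⟨l', h'⟩ heq
      beta_reduce at heq
      have h1 : γ' ^ (l : ℕ) = γ' ^ (l' : ℕ) := by rw [← hmem h, heq, hmem]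
      have h2 : (l : ℕ) = l' := pow_injOn_Iio_orderOf l.2 l'.2 h1
      have h3 : l = l' := Fin.ext h2
      subst h3
      have h4 : h = h' := Subtype.ext (mul_right_cancel heq)
      rw [h4]
    · intro g
      obtain ⟨l, hl, h, hg⟩ := hdec g
      exact ⟨⟨⟨l, hl⟩, h⟩, hg.symm⟩
  have hsumG : ∀ f : galPerm R → ℤ,
      ∑ g, f g = ∑ l ∈ Finset.range n, ∑ h : H, f ((h : galPerm R) * γ ^ l) := by
    intro f
    rw [← hbij.sum_comp f, Fintype.sum_prod_type, Finset.sum_range]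
  -- the action
  set ev : galPerm R → ℂ := fun g => ((g : Equiv.Perm R) z₀ : ℂ) with hev
  have hzero : ∀ F : ℂ → ℤ, ∑ z ∈ R, F z = 0 → ∑ g, F (ev g) = 0 := by
    intro F hF
    have h1 : ∀ w : R, ∑ g : galPerm R, F ((g : Equiv.Perm R) w : ℂ) = ∑ g, F (ev g) := by
      intro w
      obtain ⟨π, hπ, rfl⟩ := htr z₀ w
      exact Fintype.sum_equiv (Equiv.mulRight (⟨π, hπ⟩ : galPerm R)) _ _ fun g => rfl
    have h2 : ∀ g : galPerm R, ∑ w : R, F ((g : Equiv.Perm R) w : ℂ) = 0 := by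
      intro g
      rw [Equiv.sum_comp (g : Equiv.Perm R) (fun w : R => F (w : ℂ)), Finset.sum_coe_sort]
      exact hF
    have h3 : ∑ w : R, ∑ g : galPerm R, F ((g : Equiv.Perm R) w : ℂ) = 0 := by
      rw [Finset.sum_comm]
      exact Finset.sum_eq_zero fun g _ => h2 g
    rw [Finset.sum_congr rfl fun w _ => h1 w, Finset.sum_const, nsmul_eq_mul] at h3
    refine (mul_eq_zero.1 h3).resolve_left ?_
    have : Nonempty R := ⟨z₀⟩
    exact_mod_cast Fintype.card_ne_zero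
  choose τ hτ using fun g : galPerm R => g.2
  have hτev : ∀ g g' : galPerm R, τ g (ev g') = ev (g * g') := fun g g' => (hτ g _).symm
  have hevR : ∀ g, ev g ∈ R := fun g => Subtype.property _
  -- the averages
  set av : (ℂ → ℤ) → ℕ → ℤ := fun F l => ∑ h : H, F (ev ((h : galPerm R) * γ ^ l)) with hav
  have hav' : ∀ (F : ℂ → ℤ) (k l : ℕ) (h₁ : H),
      ∑ h : H, F (ev ((h : galPerm R) * γ ^ k * (h₁ * γ ^ l))) = av F (l + k) := by
    intro F k l h₁
    have h2 : γ ^ k * h₁ * (γ ^ k)⁻¹ ∈ H := hHn.conj_mem _ h₁.2 _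
    refine Fintype.sum_equiv (Equiv.mulRight (⟨_, h2⟩ : H)) _ _ fun h => ?_
    congr 2
    change (h : galPerm R) * γ ^ k * (h₁ * γ ^ l) = h * (γ ^ k * h₁ * (γ ^ k)⁻¹) * γ ^ (l + k)
    rw [add_comm l k, pow_add]
    group
  have hper : ∀ (F : ℂ → ℤ) (l : ℕ), av F (l + n) = av F l := by
    intro F l
    have h2 : γ ^ n ∈ H := by
      rw [← QuotientGroup.eq_one_iff, hpow, hn, pow_orderOf_eq_one]
    refine Fintype.sum_equiv (Equiv.mulRight (⟨_, h2⟩ : H)) _ _ fun h => ?_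
    congr 2
    change (h : galPerm R) * γ ^ (l + n) = h * γ ^ n * γ ^ l
    rw [add_comm l n, pow_add, mul_assoc]
  -- complex conjugation
  have hconjR : ∀ z : R, starRingEnd ℂ (z : ℂ) ∈ R := fun z => hconj _ z.2
  let κ : Equiv.Perm R :=
    { toFun := fun z => ⟨starRingEnd ℂ (z : ℂ), hconjR z⟩
      invFun := fun z => ⟨starRingEnd ℂ (z : ℂ), hconjR z⟩
      left_inv := fun z => Subtype.ext (Complex.conj_conj _)
      right_inv := fun z => Subtype.ext (Complex.conj_conj _) }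
  have hκG : κ ∈ galPerm R := ⟨starRingAut, fun z => rfl⟩
  let c₀ : galPerm R := ⟨κ, hκG⟩
  have hcev : ∀ g, ev (c₀ * g) = starRingEnd ℂ (ev g) := fun g => rfl
  have hccomm : ∀ g : galPerm R, g * c₀ = c₀ * g := by
    intro g
    refine Subtype.ext (Equiv.ext fun z => Subtype.ext ?_)
    change ((g : Equiv.Perm R) (κ z) : ℂ) = starRingEnd ℂ ((g : Equiv.Perm R) z : ℂ)
    rw [hτ g, hτ g, ← hc (τ g) z z.2]
    rfl
  have hc2 : c₀ * c₀ = 1 := by
    refine Subtype.ext (Equiv.ext fun z => Subtype.ext ?_)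
    exact Complex.conj_conj _
  have hcH : c₀ ∉ H := by
    intro hcH
    have h1 : orderOf (⟨c₀, hcH⟩ : H) ∣ Nat.card H := orderOf_dvd_natCard _
    have h2 : orderOf (⟨c₀, hcH⟩ : H) = 2 := by
      refine orderOf_eq_prime ?_ ?_
      · rw [sq]
        exact Subtype.ext hc2
      · intro h3
        have h4 : c₀ = 1 := congrArg Subtype.val h3
        have h5 := hcev 1
        rw [h4, mul_one] at h5
        have h6 := hε _ (hevR 1)
        rw [← h5] at h6
        obtain ⟨c, hcc⟩ := hεodd _ (hevR 1)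
        omega
    rw [h2] at h1
    obtain ⟨c, hcc⟩ := hodd
    omega
  obtain ⟨s, hsn, h₀, hs⟩ := hdec c₀
  have hs0 : s ≠ 0 := by
    rintro rfl
    rw [pow_zero, mul_one] at hs
    exact hcH (hs ▸ h₀.2)
  have h2s : n ∣ s + s := by
    rw [hn, orderOf_dvd_iff_pow_eq_one, pow_add, ← hmem h₀, ← hs, ← QuotientGroup.mk_mul, hc2]
    rfl
  have hns : n = s + s := by
    obtain ⟨c, hcc⟩ := h2s
    have h1 : c < 2 := by
      by_contra h
      have h2 : n * 2 ≤ n * c := Nat.mul_le_mul_left _ (not_lt.1 h)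
      omega
    have h2 : c ≠ 0 := by
      rintro rfl
      omega
    have h3 : c = 1 := by omega
    rw [hcc, h3, mul_one]
  obtain ⟨r, q, hq, hrq⟩ := Nat.exists_eq_two_pow_mul_odd hs0
  have hnM : n = 2 ^ (r + 1) * q := by rw [hns, hrq, pow_succ]; ring
  -- the relation between the averages
  have hrel : ∀ k, ∑ l ∈ Finset.range n, av a l * av ε (l + k) = 0 := by
    intro k
    have h1 : ∀ h' : H, ∑ l ∈ Finset.range n, ∑ h : H, a (ev ((h : galPerm R) * γ ^ l)) *
        ε (ev ((h' : galPerm R) * γ ^ k * (h * γ ^ l))) = 0 := by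
      intro h'
      rw [← hsumG fun g => a (ev g) * ε (ev ((h' : galPerm R) * γ ^ k * g))]
      have h2 := hzero (fun z => a z * ε (τ ((h' : galPerm R) * γ ^ k) z)) (ha _)
      rw [← h2]
      exact Finset.sum_congr rfl fun g _ => by rw [hτev]
    calc ∑ l ∈ Finset.range n, av a l * av ε (l + k)
        = ∑ l ∈ Finset.range n, ∑ h : H, ∑ h' : H, a (ev ((h : galPerm R) * γ ^ l)) *
            ε (ev ((h' : galPerm R) * γ ^ k * (h * γ ^ l))) := by
          refine Finset.sum_congr rfl fun l _ => ?_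
          rw [Finset.sum_mul]
          refine Finset.sum_congr rfl fun h _ => ?_
          rw [← Finset.mul_sum, hav' ε k l h]
      _ = ∑ h' : H, ∑ l ∈ Finset.range n, ∑ h : H, a (ev ((h : galPerm R) * γ ^ l)) *
            ε (ev ((h' : galPerm R) * γ ^ k * (h * γ ^ l))) := by
          rw [Finset.sum_congr rfl fun l _ => Finset.sum_comm]
          exact Finset.sum_comm
      _ = 0 := Finset.sum_eq_zero fun h' _ => h1 h'
  have hconjav : ∀ (F : ℂ → ℤ) (l : ℕ), av F (l + s) = av (fun z => F (starRingEnd ℂ z)) l := by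
    intro F l
    have h2 : ∀ h : H, (h : galPerm R) * γ ^ (l + s) = (h * (h₀ : galPerm R)⁻¹) * (c₀ * γ ^ l) := by
      intro h
      rw [hs, add_comm l s, pow_add]
      group
    rw [hav]
    beta_reduce
    refine Fintype.sum_equiv (Equiv.mulRight (h₀⁻¹ : H)) _ _ fun h => ?_
    rw [h2]
    change F (ev _) = F (starRingEnd ℂ (ev ((h * (h₀ : galPerm R)⁻¹) * γ ^ l)))
    rw [← hcev, ← mul_assoc, ← mul_assoc, hccomm]
  have hcore := cyc_core (r := r) hq (a := av a) (e := av ε)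
    (fun l => by rw [← hnM, hper]) (fun l => by rw [← hnM, hper])
    (fun l => odd_sum_odd _ _ (fun h => hεodd _ (hevR _)) (by
      rw [Finset.card_univ, ← Nat.card_eq_fintype_card]; exact hodd))
    (fun l => by
      rw [← hrq, hconjav, hav]
      beta_reduce
      rw [← Finset.sum_neg_distrib]
      refine Finset.sum_congr rfl fun h _ => ?_
      exact hε _ (hevR _))
    (fun k => by rw [← hnM]; exact hrel k)
  -- the automorphisms
  let e := (Fintype.equivFin (H × Fin q)).symm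
  refine ⟨Fintype.card (H × Fin q),
    fun i => τ (((e i).1 : galPerm R) * γ ^ (2 ^ (r + 1) * ((e i).2 : ℕ))), ?_, fun z hz => ?_⟩
  · rw [Fintype.card_prod, Fintype.card_fin, ← Nat.card_eq_fintype_card]
    exact hodd.mul hq
  obtain ⟨π, hπ, hπz⟩ := htr z₀ ⟨z, hz⟩
  obtain ⟨l, _, h₁, hl⟩ := hdec ⟨π, hπ⟩
  have hzev : z = ev ((h₁ : galPerm R) * γ ^ l) := by
    rw [← hl]
    exact (congrArg Subtype.val hπz).symm
  have hall : ∀ F : ℂ → ℤ, ∑ i, F (τ (((e i).1 : galPerm R) *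
      γ ^ (2 ^ (r + 1) * ((e i).2 : ℕ))) z) =
      ∑ j ∈ Finset.range q, av F (l + 2 ^ (r + 1) * j) := by
    intro F
    rw [e.sum_comp (fun p : H × Fin q =>
      F (τ ((p.1 : galPerm R) * γ ^ (2 ^ (r + 1) * (p.2 : ℕ))) z)), Fintype.sum_prod_type,
      Finset.sum_comm, Finset.sum_range]
    refine Finset.sum_congr rfl fun j _ => ?_
    rw [← hav' F (2 ^ (r + 1) * j) l h₁]
    refine Finset.sum_congr rfl fun h _ => ?_
    rw [hzev, hτev]
  rw [hall a, hcore l]
  have h1 : ∀ i, a (τ (((e i).1 : galPerm R) * γ ^ (2 ^ (r + 1) * ((e i).2 : ℕ)))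
      (starRingEnd ℂ z)) = a (starRingEnd ℂ (τ (((e i).1 : galPerm R) *
        γ ^ (2 ^ (r + 1) * ((e i).2 : ℕ))) z)) := fun i => by rw [hc _ z hz]
  rw [Finset.sum_congr rfl fun i _ => h1 i, hall fun z => a (starRingEnd ℂ z)]
  refine Finset.sum_congr rfl fun j _ => ?_
  rw [← hrq, add_right_comm, hconjav]

/-- **The families.** -/
theorem oddSym_good {R : Finset ℂ} {e : ℂ → ℤ} (hR : ∀ (τ : ℂ ≃+* ℂ), ∀ z ∈ R, τ z ∈ R)
    (he : ∀ z ∈ R, e (starRingEnd ℂ z) = - e z) (hg : GoodEigs R) (hs : SameParity R e) :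
    OddSym R e := by
  classical
  have hconj : ∀ z ∈ R, starRingEnd ℂ z ∈ R := fun z hz => hR (starRingAut : RingAut ℂ) z hz
  obtain ⟨htr', hc, h⟩ := hg
  obtain ⟨s, hs⟩ := hs
  choose! t ht using hs
  have hs0 : (2 : ℤ) ^ s ≠ 0 := by positivity
  have ht' : ∀ z ∈ R, t (starRingEnd ℂ z) = - t z := by
    intro z hz
    have h1 := he z hz
    rw [(ht _ (hconj z hz)).2, (ht z hz).2, ← mul_neg] at h1
    exact mul_left_cancel₀ hs0 h1
  have htodd : ∀ z ∈ R, Odd (t z) := fun z hz => (ht z hz).1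
  have hne : ∀ z ∈ R, starRingEnd ℂ z ≠ z := by
    intro z hz h
    have h1 := ht' z hz
    rw [h] at h1
    obtain ⟨c, hcc⟩ := htodd z hz
    omega
  refine ⟨hne, fun a ha => ?_⟩
  have ha' : IsRel R t a := by
    intro τ
    have h1 := ha τ
    have h2 : ∑ z ∈ R, a z * e (τ z) = 2 ^ s * ∑ z ∈ R, a z * t (τ z) := by
      rw [Finset.mul_sum]
      refine Finset.sum_congr rfl fun z hz => ?_
      rw [(ht _ (hR τ z hz)).2]
      ring
    rw [h2] at h1
    exact (mul_eq_zero.1 h1).resolve_left hs0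
  have htr : ∀ z w : R, ∃ π ∈ galPerm R, π z = w := by
    intro z w
    obtain ⟨τ, hτ⟩ := htr' z z.2 w w.2
    refine ⟨⟨fun z => ⟨τ z, hR τ z z.2⟩, fun z => ⟨τ.symm z, hR τ.symm z z.2⟩,
      fun z => Subtype.ext (τ.symm_apply_apply _), fun z => Subtype.ext (τ.apply_symm_apply _)⟩,
      ⟨τ, fun _ => rfl⟩, Subtype.ext hτ⟩
  rcases h with ⟨g, hg, h1, h2⟩ | ⟨P, hP⟩
  · exact oddSum_of hc hconj ht' htodd (oddTransitive hc hconj hne hg h1 htr h2) a ha'
  · obtain ⟨H, hHn, hodd, hcyc⟩ := exists_normal_odd P hP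
    exact oddSum_quot hc hconj ht' htodd htr H hHn hodd hcyc a ha'

end Pool.Agent.Helper70Rk
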