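import Pool.Agent.Helper70_rk2.Words

/-!
# Motives with an endomorphism with simple eigenvalues
-/

open CategoryTheory AlgebraicGeometry

universe u v

namespace Pool.Agent.Helper70Rk

set_option linter.unusedSectionVars false
set_option linter.unusedVariables false

open Pool.Agent.H914 Pool.Agent.H914.VarClass Pool.Agent.H914.VarClass.Obj
  Pool.Agent.H914.WeilCohomology Pool.Agent.R908

variable {k : Type u} [Field k] {𝒱 : VarClass k} {ops : CycleOps 𝒱}
  {V : WeilCohomology.{u, v} ops} {X Y Z : 𝒱.Obj} {ι : Type}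

/-- A linear form which vanishes on the classes of the degrees different from `w`. -/
lemma form_hom (φ : V.H X →ₗ[V.K] V.K) {w : ℕ} (hw : w ≤ 2 * X.dim)
    (h0 : ∀ j, j ≠ w → ∀ x ∈ V.gr X j, φ x = 0) :
    ∃ y ∈ V.gr X (2 * X.dim - w), ∀ x, φ x = V.tr X (y * x) := by
  obtain ⟨w₀, hw₀⟩ := exists_form φ
  refine ⟨Pool.Agent.H914.proj (V.isInternal X) (2 * X.dim - w) w₀, proj_mem _ _ _, ?_⟩
  intro x
  refine gr_induction (V.isInternal X) (p := fun x => φ x = V.tr X
    (Pool.Agent.H914.proj (V.isInternal X) (2 * X.dim - w) w₀ * x)) ?_ ?_ x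
  · intro j a ha
    by_cases hj : j = w
    · subst hj
      rw [hw₀ a]
      have h2 : ∀ b : V.H X, V.tr X (b * a) =
          V.tr X (Pool.Agent.H914.proj (V.isInternal X) (2 * X.dim - j) b * a) := by
        intro b
        refine gr_induction (V.isInternal X) (p := fun b => V.tr X (b * a) =
          V.tr X (Pool.Agent.H914.proj (V.isInternal X) (2 * X.dim - j) b * a)) ?_ ?_ b
        · intro l b hb
          by_cases hl : l = 2 * X.dim - j
          · subst hl; rw [proj_same _ hb]
          · rw [proj_ne _ hb hl, zero_mul, map_zero,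
              V.tr_eq_zero (V.mul_mem hb ha) (by omega)]
        · intro b b' hb hb'
          rw [map_add, add_mul, add_mul, map_add, map_add, hb, hb']
      exact h2 w₀
    · rw [h0 j hj a ha]
      by_cases hj2 : j ≤ 2 * X.dim
      · exact (V.tr_eq_zero (V.mul_mem (proj_mem _ _ _) ha) (by omega)).symm
      · rw [V.gr_eq_bot X j (by omega)] at ha
        rw [(Submodule.mem_bot _).1 ha, mul_zero, map_zero]
  · intro a b ha hb
    rw [mul_add, map_add, map_add, ha, hb]

/-- Operators on a motive `V = im Π` of weight `w`, with eigenvectors of `F` which span it. -/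
structure EigMot (V : WeilCohomology.{u, v} ops) (X : 𝒱.Obj) (w : ℕ)
    (Pi F : V.H X →ₗ[V.K] V.H X) (ι : Type) [Fintype ι] where
  /-- the eigenvectors -/
  u : ι → V.H X
  /-- the eigenvalues -/
  mu : ι → V.K
  inj : Function.Injective mu
  ne : ∀ l, u l ≠ 0
  pi : ∀ l, Pi (u l) = u l
  eig : ∀ l, F (u l) = mu l • u l
  span : ∀ x, ∃ c : ι → V.K, Pi x = ∑ l, c l • u l
  aPi : Pi ∈ AOp V X X
  aF : F ∈ AOp V X X
  gr : ∀ x, Pi x ∈ V.gr X w
  gr0 : ∀ j, j ≠ w → ∀ x ∈ V.gr X j, Pi x = 0
  le : w ≤ 2 * X.dim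

namespace EigMot

variable [Fintype ι] {w : ℕ} {Pi F : V.H X →ₗ[V.K] V.H X} (E : EigMot V X w Pi F ι)

include E in
lemma pol_mem (p : Polynomial V.K) :
    (Polynomial.aeval (R := V.K) (A := Module.End V.K (V.H X)) F p : V.H X →ₗ[V.K] V.H X) ∘ₗ Pi ∈
      AOp V X X := by
  induction p using Polynomial.induction_on' with
  | add p q hp hq =>
    rw [map_add, LinearMap.add_comp]
    exact Submodule.add_mem _ hp hq
  | monomial n c =>
    have h1 : ∀ n : ℕ, ((F ^ n : Module.End V.K (V.H X)) : V.H X →ₗ[V.K] V.H X) ∘ₗ Pi ∈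
        AOp V X X := by
      intro n
      induction n with
      | zero =>
        have e : ((F ^ 0 : Module.End V.K (V.H X)) : V.H X →ₗ[V.K] V.H X) ∘ₗ Pi = Pi := by
          rw [pow_zero]
          rfl
        rw [e]
        exact E.aPi
      | succ n ih =>
        have e : ((F ^ (n + 1) : Module.End V.K (V.H X)) : V.H X →ₗ[V.K] V.H X) ∘ₗ Pi =
            F ∘ₗ (((F ^ n : Module.End V.K (V.H X)) : V.H X →ₗ[V.K] V.H X) ∘ₗ Pi) := by
          rw [pow_succ']
          rfl
        rw [e]
        exact AOp.comp E.aF ih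
    rw [Polynomial.aeval_monomial]
    have e : (((algebraMap V.K (Module.End V.K (V.H X))) c * F ^ n :
        Module.End V.K (V.H X)) : V.H X →ₗ[V.K] V.H X) ∘ₗ Pi =
        c • (((F ^ n : Module.End V.K (V.H X)) : V.H X →ₗ[V.K] V.H X) ∘ₗ Pi) := rfl
    rw [e]
    exact Submodule.smul_mem _ _ (h1 n)

lemma pol_u (p : Polynomial V.K) (l : ι) :
    (Polynomial.aeval (R := V.K) (A := Module.End V.K (V.H X)) F p) (E.u l) =
      p.eval (E.mu l) • E.u l := by
  induction p using Polynomial.induction_on' with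
  | add p q hp hq => rw [map_add, LinearMap.add_apply, hp, hq, Polynomial.eval_add, add_smul]
  | monomial n c =>
    have h1 : ∀ n : ℕ, (F ^ n : Module.End V.K (V.H X)) (E.u l) = E.mu l ^ n • E.u l := by
      intro n
      induction n with
      | zero => rw [pow_zero, pow_zero, one_smul]; rfl
      | succ n ih =>
        rw [pow_succ', Module.End.mul_apply, ih, map_smul, E.eig, smul_smul, pow_succ]
    rw [Polynomial.aeval_monomial, Polynomial.eval_monomial, Module.End.mul_apply, h1,
      Module.algebraMap_end_apply, smul_smul]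

/-- **The dual family.** -/
theorem exists_dual [DecidableEq ι] : ∃ u' : ι → V.H X, (∀ l, u' l ∈ V.gr X (2 * X.dim - w)) ∧
    (∀ l m, V.tr X (u' l * E.u m) = if l = m then 1 else 0) ∧ (∀ l, ER (u' l) (E.u l)) ∧
    ∀ x, Pi x = ∑ l, V.tr X (u' l * x) • E.u l := by
  -- the eigenprojectors
  set G : ι → (V.H X →ₗ[V.K] V.H X) := fun l =>
    (Polynomial.aeval (R := V.K) (A := Module.End V.K (V.H X)) F
      (Lagrange.basis Finset.univ E.mu l) : V.H X →ₗ[V.K] V.H X) ∘ₗ Pi with hG
  have hGA : ∀ l, G l ∈ AOp V X X := fun l => E.pol_mem _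
  have hGu : ∀ (l : ι) (c : ι → V.K) (x : V.H X), Pi x = ∑ m, c m • E.u m → G l x = c l • E.u l := by
    intro l c x hx
    rw [hG]
    beta_reduce
    rw [LinearMap.comp_apply, hx, map_sum, Finset.sum_eq_single l]
    · have h1 := E.pol_u (Lagrange.basis Finset.univ E.mu l) l
      rw [Lagrange.eval_basis_self E.inj.injOn (Finset.mem_univ _), one_smul] at h1
      rw [map_smul, h1]
    · intro m _ hm
      have h1 := E.pol_u (Lagrange.basis Finset.univ E.mu l) m
      rw [Lagrange.eval_basis_of_ne (Ne.symm hm) (Finset.mem_univ _), zero_smul] at h1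
      rw [map_smul, h1, smul_zero]
    · intro h; exact absurd (Finset.mem_univ _) h
  have hψ : ∀ l, ∃ ψ : V.H X →ₗ[V.K] V.K, ψ (E.u l) = 1 := fun l =>
    Module.Projective.exists_dual_eq_one V.K (E.ne l)
  choose ψ hψ using hψ
  have h1 : ∀ l, ∃ y ∈ V.gr X (2 * X.dim - w), ∀ x, (ψ l ∘ₗ G l) x = V.tr X (y * x) := by
    intro l
    apply form_hom _ E.le
    intro j hj x hx
    rw [LinearMap.comp_apply, hG]
    beta_reduce
    rw [LinearMap.comp_apply, E.gr0 j hj x hx, map_zero, map_zero]
  choose u' hu' hu'' using h1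
  have hcoef : ∀ (l : ι) (c : ι → V.K) (x : V.H X), Pi x = ∑ m, c m • E.u m →
      V.tr X (u' l * x) = c l := by
    intro l c x hx
    rw [← hu'', LinearMap.comp_apply, hGu l c x hx, map_smul, hψ, smul_eq_mul, mul_one]
  refine ⟨u', hu', ?_, ?_, ?_⟩
  · intro l m
    refine hcoef l (fun l => if l = m then 1 else 0) (E.u m) ?_
    rw [E.pi, Finset.sum_eq_single m]
    · rw [if_pos rfl, one_smul]
    · intro l' _ h
      rw [if_neg h, zero_smul]
    · intro h; exact absurd (Finset.mem_univ _) h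
  · intro l
    rw [er_iff ⟨_, hu' l⟩ ⟨w, E.pi l ▸ E.gr _⟩]
    have e : rk1 (u' l) (E.u l) = G l := by
      refine LinearMap.ext fun x => ?_
      obtain ⟨c, hc⟩ := E.span x
      rw [rk1_apply, hGu l c x hc, hcoef l c x hc]
    rw [e]
    exact hGA l
  · intro x
    obtain ⟨c, hc⟩ := E.span x
    rw [hc]
    exact Finset.sum_congr rfl fun l _ => by rw [hcoef l c x hc]

end EigMot

end Pool.Agent.Helper70Rk
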