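import Pool.Agent.Helper70_rk2.Pol

/-!
# Classes generated by the letters and by algebraic classes
-/

open CategoryTheory AlgebraicGeometry

universe u v

namespace Pool.Agent.Helper70Rk

set_option linter.unusedSectionVars false
set_option linter.unusedVariables false

open Pool.Agent.H914 Pool.Agent.H914.VarClass Pool.Agent.H914.VarClass.Obj
  Pool.Agent.H914.WeilCohomology Pool.Agent.R908

variable {k : Type u} [Field k] {𝒱 : VarClass k} {ops : CycleOps 𝒱}
  {W : WeilCohomology.{u, v} ops} {X Y Z Z' : 𝒱.Obj} {ι : Type}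

section AOp

lemma AOp.mul {c : W.H Z} (hc : c ∈ Alg W Z) : LinearMap.mulLeft W.K c ∈ AOp W Z Z := by
  rw [mem_aop]
  refine ⟨W.push (diag Z) c, Alg.push _ hc, ?_⟩
  refine LinearMap.ext fun a => ?_
  rw [corr_diag, LinearMap.mulLeft_apply]

lemma AOp.map (g : Z ⟶ Z') : (W.map g).toLinearMap ∈ AOp W Z' Z := by
  rw [mem_aop]
  refine ⟨W.push (Obj.lift g (𝟙 Z)) 1, Alg.push _ Alg.one, ?_⟩
  refine LinearMap.ext fun a => ?_
  rw [corr_apply, ← W.push_mul, ← W.push_comp, ← W.map_comp, Obj.lift_snd, Obj.lift_fst, one_mul,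
    W.push_id]
  rfl

lemma AOp.push (g : Z ⟶ Z') : W.push g ∈ AOp W Z Z' := by
  rw [mem_aop]
  refine ⟨W.push (Obj.lift (𝟙 Z) g) 1, Alg.push _ Alg.one, ?_⟩
  refine LinearMap.ext fun a => ?_
  rw [corr_apply, ← W.push_mul, ← W.push_comp, ← W.map_comp, Obj.lift_snd, Obj.lift_fst, one_mul,
    W.map_id]

end AOp

lemma Hom.zero : Hom (0 : W.H X) := ⟨0, Submodule.zero_mem _⟩

lemma Hom.push {a : W.H X} (ha : Hom a) (g : X ⟶ Y) : Hom (W.push g a) := by
  obtain ⟨i, hi⟩ := ha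
  have h1 := W.push_mem g hi
  by_cases hneg : (i : ℤ) + 2 * ((Y.dim : ℤ) - X.dim) < 0
  · rw [grZ_of_neg hneg] at h1
    rw [(Submodule.mem_bot _).1 h1]
    exact Hom.zero
  · obtain ⟨j, hj⟩ := Int.eq_ofNat_of_zero_le (not_lt.1 hneg)
    rw [hj, grZ_natCast] at h1
    exact ⟨j, h1⟩

section ExtLin

lemma ext_add_left (a a' : W.H X) (b : W.H Y) : ext (a + a') b = ext a b + ext a' b := by
  rw [ext, ext, ext, map_add, add_mul]

lemma ext_smul_left (c : W.K) (a : W.H X) (b : W.H Y) : ext (c • a) b = c • ext a b := by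
  rw [ext, ext, map_smul, smul_mul_assoc]

lemma ext_zero_left (b : W.H Y) : ext (0 : W.H X) b = 0 := by
  rw [ext, map_zero, zero_mul]

end ExtLin

/-- The classes on `Z` whose external products with the words of type `s` are algebraic. -/
noncomputable def HS (u : ι → W.H X) (s : Multiset ι) (Z : 𝒱.Obj) : Submodule W.K (W.H Z) where
  carrier := {x | ∀ (Z' : 𝒱.Obj) (L : List ((Z' ⟶ X) × ι)),
    ((L.map Prod.snd : List ι) : Multiset ι) = s → ER x (wl u L)}
  zero_mem' := by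
    intro Z' L _
    rw [ER, ext_zero_left]
    exact Submodule.zero_mem _
  add_mem' := by
    intro x y hx hy Z' L hL
    rw [ER, ext_add_left]
    exact Submodule.add_mem _ (hx Z' L hL) (hy Z' L hL)
  smul_mem' := by
    intro c x hx Z' L hL
    rw [ER, ext_smul_left]
    exact Submodule.smul_mem _ _ (hx Z' L hL)

lemma mem_hs {u : ι → W.H X} {s : Multiset ι} {x : W.H Z} : x ∈ HS u s Z ↔
    ∀ (Z' : 𝒱.Obj) (L : List ((Z' ⟶ X) × ι)), ((L.map Prod.snd : List ι) : Multiset ι) = s →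
      ER x (wl u L) := Iff.rfl

variable {u : ι → W.H X} {s t : Multiset ι}

lemma wl_nil : wl u ([] : List ((Z ⟶ X) × ι)) = 1 := rfl

lemma hs_zero {x : W.H Z} : x ∈ HS u 0 Z ↔ x ∈ Alg W Z := by
  constructor
  · intro h
    have h1 := h Z [] rfl
    rw [ER, wl_nil, ext, map_one, mul_one] at h1
    have h2 := Alg.map (diag Z) h1
    rw [← W.map_comp] at h2
    have e : diag Z ≫ fst Z Z = 𝟙 Z := Obj.lift_fst _ _
    rwa [e, W.map_id] at h2
  · intro h Z' L hL
    have h1 : L = [] := by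
      rcases L with _ | ⟨b, L⟩
      · rfl
      · exact absurd (congrArg Multiset.card hL) (by simp)
    rw [h1, ER, wl_nil, ext, map_one, mul_one]
    exact Alg.map _ h

lemma hs_map (g : Z ⟶ Z') {x : W.H Z'} (hx : x ∈ HS u s Z') : W.map g x ∈ HS u s Z := by
  intro Y L hL
  have h1 := Alg.map (Obj.lift (fst Z Y ≫ g) (snd Z Y)) (hx Y L hL)
  rw [ext, map_mul, ← W.map_comp, ← W.map_comp, Obj.lift_fst, Obj.lift_snd, W.map_comp] at h1
  exact h1

lemma er_push (g : Z ⟶ Z') {x : W.H Z} {b : W.H Y} (hx : Hom x) (hb : Hom b) (h : ER x b) :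
    ER (W.push g x) b := by
  rw [er_iff hx hb] at h
  rw [er_iff (hx.push g) hb]
  have e : rk1 (W.push g x) b = rk1 x b ∘ₗ (W.map g).toLinearMap := by
    refine LinearMap.ext fun y => ?_
    rw [LinearMap.comp_apply, rk1_apply, rk1_apply, W.tr_push]
    rfl
  rw [e]
  exact AOp.comp h (AOp.map g)

lemma hs_push (hu : ∀ l, Hom (u l)) (g : Z ⟶ Z') {x : W.H Z} (hxh : Hom x)
    (hx : x ∈ HS u s Z) : W.push g x ∈ HS u s Z' :=
  fun Y L hL => er_push g hxh (wl_hom hu L) (hx Y L hL)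

/-- Splitting a word. -/
lemma wl_split (hu : ∀ l, Hom (u l)) {L : List ((Z ⟶ X) × ι)}
    (hL : ((L.map Prod.snd : List ι) : Multiset ι) = s + t) :
    ∃ (L₁ L₂ : List ((Z ⟶ X) × ι)) (ε : W.K), ε ≠ 0 ∧
      ((L₁.map Prod.snd : List ι) : Multiset ι) = s ∧
      ((L₂.map Prod.snd : List ι) : Multiset ι) = t ∧ wl u L = ε • (wl u L₁ * wl u L₂) := by
  induction s using Quotient.inductionOn with | _ ls =>
  induction t using Quotient.inductionOn with | _ lt =>
  have hL' : (L.map Prod.snd).Perm (ls ++ lt) := Multiset.coe_eq_coe.1 hL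
  obtain ⟨L₁, hL₁, h1⟩ := exists_perm_of_map hL'
  obtain ⟨L₂, L₃, rfl, h2, h3⟩ := List.map_eq_append_iff.1 h1
  obtain ⟨ε, hε, h4⟩ := word_perm' (hL₁.map fun b => W.map b.1 (u b.2)) (by
    intro y hy
    obtain ⟨b, _, rfl⟩ := List.mem_map.1 hy
    exact (hu _).map _)
  refine ⟨L₂, L₃, ε, hε, by rw [h2]; rfl, by rw [h3]; rfl, ?_⟩
  rw [wl, h4, List.map_append, List.prod_append]
  rfl

lemma hs_mul (hu : ∀ l, Hom (u l)) {x y : W.H Z} (hyh : Hom y) (hx : x ∈ HS u s Z)
    (hy : y ∈ HS u t Z) : x * y ∈ HS u (s + t) Z := by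
  intro Y L hL
  obtain ⟨L₁, L₂, ε, hε, h1, h2, h3⟩ := wl_split hu hL
  have h4 := Alg.mul (hx Y L₁ h1) (hy Y L₂ h2)
  obtain ⟨r, hr, e⟩ := comm_of_hom (hyh.map (fst Z Y)) ((wl_hom hu L₁).map (snd Z Y))
  have h5 : ext (x * y) (wl u L) = (ε * r) • (ext x (wl u L₁) * ext y (wl u L₂)) := by
    rw [h3, ext, ext, ext, map_smul, map_mul, map_mul, mul_smul_comm, mul_assoc,
      ← mul_assoc (W.map (fst Z Y) y), e, smul_mul_assoc, mul_smul_comm, smul_smul]
    simp only [mul_assoc]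
  rw [ER, h5]
  exact Submodule.smul_mem _ _ h4

lemma hs_add_uw (hu : ∀ l, Hom (u l)) {x : W.H Z} (hx : x ∈ HS u s Z) (ht : UW u t) :
    x ∈ HS u (s + t) Z := by
  intro Y L hL
  obtain ⟨L₁, L₂, ε, hε, h1, h2, h3⟩ := wl_split hu hL
  have h4 := Alg.mul (hx Y L₁ h1) (Alg.map (snd Z Y) (ht Y L₂ h2))
  have h5 : ext x (wl u L) = ε • (ext x (wl u L₁) * W.map (snd Z Y) (wl u L₂)) := by
    rw [h3, ext, ext, map_smul, map_mul, mul_smul_comm, mul_assoc]
  rw [ER, h5]
  exact Submodule.smul_mem _ _ h4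

/-- Cancellation. -/
theorem hs_cancel (hu : ∀ l, Hom (u l)) {l m : ι} {y : W.H (X.prod X)}
    (hy : y ∈ Alg W (X.prod X)) (ht : W.tr (X.prod X) (y * ext (u l) (u m)) ≠ 0)
    {x : W.H Z} (hxh : Hom x) (h : x ∈ HS u (s + {l, m}) Z) : x ∈ HS u s Z := by
  intro Y L hL
  have h1 := h ((X.prod X).prod Y) ((fst (X.prod X) Y ≫ fst X X, l) ::
    (fst (X.prod X) Y ≫ snd X X, m) :: pl (snd (X.prod X) Y) L) (by
      rw [List.map_cons, List.map_cons, pl_snd, ← Multiset.cons_coe, ← Multiset.cons_coe, hL,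
        Multiset.insert_eq_cons, Multiset.add_cons, add_comm s, Multiset.singleton_add])
  set L' := ((fst (X.prod X) Y ≫ fst X X, l) ::
    (fst (X.prod X) Y ≫ snd X X, m) :: pl (snd (X.prod X) Y) L) with hL'
  have e1 : wl u L' = W.map (fst (X.prod X) Y) (ext (u l) (u m)) *
      W.map (snd (X.prod X) Y) (wl u L) := by
    rw [hL', wl_cons, wl_cons, ← mul_assoc, ← map_wl]
    congr 1
    rw [ext, map_mul, ← W.map_comp, ← W.map_comp]
  set G := W.push (snd (X.prod X) Y) ∘ₗ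
    LinearMap.mulLeft W.K (W.map (fst (X.prod X) Y) y) with hG
  have hGA : G ∈ AOp W ((X.prod X).prod Y) Y := AOp.comp (AOp.push _) (AOp.mul (Alg.map _ hy))
  have e2 : G (wl u L') = W.tr (X.prod X) (y * ext (u l) (u m)) • wl u L := by
    rw [hG, LinearMap.comp_apply, LinearMap.mulLeft_apply, e1, ← mul_assoc, ← map_mul,
      W.push_snd]
  have h2 := h1.op (F := G) hxh (wl_hom hu L') hGA (by
    rw [e2]
    exact (wl_hom hu L).smul _)
  rw [e2] at h2
  have h3 : ER ((1 : W.K) • x) (W.tr (X.prod X) (y * ext (u l) (u m)) • wl u L) := by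
    rwa [one_smul]
  exact h3.of_smul one_ne_zero ht

/-- The span of the homogeneous classes which belong to the spaces `HS`. -/
noncomputable def GS (u : ι → W.H X) (Z : 𝒱.Obj) : Submodule W.K (W.H Z) :=
  Submodule.span W.K {x | Hom x ∧ ∃ s, x ∈ HS u s Z}

lemma GS.alg {x : W.H Z} (hx : x ∈ Alg W Z) : x ∈ GS u Z := by
  induction hx using Submodule.span_induction with
  | mem x hx =>
    obtain ⟨j, z, hz, rfl⟩ := hx
    exact Submodule.subset_span ⟨⟨_, W.cl_mem hz⟩, 0, hs_zero.2 (Alg.cl hz)⟩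
  | zero => exact Submodule.zero_mem _
  | add x y _ _ hx hy => exact Submodule.add_mem _ hx hy
  | smul c x _ hx => exact Submodule.smul_mem _ _ hx

lemma GS.letter (hu : ∀ l, Hom (u l)) {l m : ι} (h : ER (u l) (u m)) : u l ∈ GS u X := by
  refine Submodule.subset_span ⟨hu l, {m}, ?_⟩
  intro Y L hL
  have h1 : L.map Prod.snd = [m] := List.perm_singleton.1 (Multiset.coe_eq_coe.1 hL)
  obtain ⟨a, T', rfl, ha, h2⟩ := List.map_eq_cons_iff.1 h1
  rw [List.map_eq_nil_iff] at h2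
  subst h2
  have e : wl u [a] = W.map a.1 (u m) := by
    rw [wl, List.map_singleton, List.prod_singleton, ha]
  have h3 := Alg.map (Obj.lift (fst X Y) (snd X Y ≫ a.1)) h
  rw [ext, map_mul, ← W.map_comp, ← W.map_comp, Obj.lift_fst, Obj.lift_snd, W.map_comp _ a.1] at h3
  rw [ER, e]
  exact h3

lemma GS.map (g : Z ⟶ Z') {x : W.H Z'} (hx : x ∈ GS u Z') : W.map g x ∈ GS u Z := by
  induction hx using Submodule.span_induction with
  | mem x hx =>
    obtain ⟨hh, s, hs⟩ := hx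
    exact Submodule.subset_span ⟨hh.map g, s, hs_map g hs⟩
  | zero => rw [map_zero]; exact Submodule.zero_mem _
  | add x y _ _ hx hy => rw [map_add]; exact Submodule.add_mem _ hx hy
  | smul c x _ hx => rw [map_smul]; exact Submodule.smul_mem _ _ hx

lemma GS.push (hu : ∀ l, Hom (u l)) (g : Z ⟶ Z') {x : W.H Z} (hx : x ∈ GS u Z) :
    W.push g x ∈ GS u Z' := by
  induction hx using Submodule.span_induction with
  | mem x hx =>
    obtain ⟨hh, s, hs⟩ := hx
    exact Submodule.subset_span ⟨hh.push g, s, hs_push hu g hh hs⟩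
  | zero => rw [map_zero]; exact Submodule.zero_mem _
  | add x y _ _ hx hy => rw [map_add]; exact Submodule.add_mem _ hx hy
  | smul c x _ hx => rw [map_smul]; exact Submodule.smul_mem _ _ hx

lemma GS.mul (hu : ∀ l, Hom (u l)) {x y : W.H Z} (hx : x ∈ GS u Z) (hy : y ∈ GS u Z) :
    x * y ∈ GS u Z := by
  induction hx using Submodule.span_induction with
  | mem x hx =>
    obtain ⟨hh, s, hs⟩ := hx
    induction hy using Submodule.span_induction with
    | mem y hy =>
      obtain ⟨hh', t, ht⟩ := hy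
      exact Submodule.subset_span ⟨hh.mul hh', s + t, hs_mul hu hh' hs ht⟩
    | zero => rw [mul_zero]; exact Submodule.zero_mem _
    | add x y _ _ hx hy => rw [mul_add]; exact Submodule.add_mem _ hx hy
    | smul c x _ hx => rw [mul_smul_comm]; exact Submodule.smul_mem _ _ hx
  | zero => rw [zero_mul]; exact Submodule.zero_mem _
  | add x y _ _ hx hy => rw [add_mul]; exact Submodule.add_mem _ hx hy
  | smul c x _ hx => rw [smul_mul_assoc]; exact Submodule.smul_mem _ _ hx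

end Pool.Agent.Helper70Rk
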