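import Pool.Agent.Helper70_rk2.EigMot

/-!
# Polarised motives with an endomorphism with simple eigenvalues
-/

open CategoryTheory AlgebraicGeometry

universe u v

namespace Pool.Agent.Helper70Rk

set_option linter.unusedSectionVars false
set_option linter.unusedVariables false

open Pool.Agent.H914 Pool.Agent.H914.VarClass Pool.Agent.H914.VarClass.Obj
  Pool.Agent.H914.WeilCohomology Pool.Agent.R908

variable {k : Type u} [Field k] {𝒱 : VarClass k} {ops : CycleOps 𝒱}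
  {V : WeilCohomology.{u, v} ops} {X Y Z : 𝒱.Obj} {ι : Type}

lemma ER.of_smul {a : V.H X} {b : V.H Y} {s t : V.K} (hs : s ≠ 0) (ht : t ≠ 0)
    (h : ER (s • a) (t • b)) : ER a b := by
  have e : ext (s • a) (t • b) = (s * t) • ext a b := by
    rw [ext, ext, map_smul, map_smul, smul_mul_assoc, mul_smul_comm, smul_smul]
  rw [ER, e] at h
  have h1 := Submodule.smul_mem _ (s * t)⁻¹ h
  rwa [smul_smul, inv_mul_cancel₀ (mul_ne_zero hs ht), one_smul] at h1

/-- Conjugates of algebraic external products. -/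
lemma ER.gal (S : SemiLin V) {a a' : V.H X} {b b' : V.H Y} {s t : V.K} (hs : s ≠ 0) (ht : t ≠ 0)
    (ha : S.σ X a = s • a') (hb : S.σ Y b = t • b') (h : ER a b) : ER a' b' := by
  apply ER.of_smul hs ht
  rw [← ha, ← hb, ER, ext, ← S.map, ← S.map, ← S.mul]
  exact σ_alg S h

namespace EigMot

variable [Fintype ι] {w : ℕ} {Pi F : V.H X →ₗ[V.K] V.H X} (E : EigMot V X w Pi F ι)

/-- The image of the dual family under a semilinear automorphism. -/
lemma gal_dual [DecidableEq ι] {u' : ι → V.H X}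
    (h1 : ∀ l m, V.tr X (u' l * E.u m) = if l = m then 1 else 0)
    (h3 : ∀ x, Pi x = ∑ l, V.tr X (u' l * x) • E.u l)
    (S : SemiLin V) (hsurj : ∀ x : V.H X, ∃ y, S.σ X y = x)
    (htr : ∀ x, V.tr X (S.σ X x) = S.τ (V.tr X x)) (hPi : ∀ x, S.σ X (Pi x) = Pi (S.σ X x))
    {π : Equiv.Perm ι} (hπ : ∀ l, ∃ s : V.K, s ≠ 0 ∧ S.σ X (E.u l) = s • E.u (π l)) (l : ι) :
    ∃ s : V.K, s ≠ 0 ∧ S.σ X (u' l) = s • u' (π l) := by
  choose s hs hπ using hπ
  refine ⟨(s l)⁻¹, inv_ne_zero (hs l), ?_⟩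
  apply V.tr_ext
  intro x
  obtain ⟨y, rfl⟩ := hsurj x
  rw [← S.mul, htr, smul_mul_assoc, map_smul, smul_eq_mul]
  have h4 : Pi (S.σ X y) = ∑ m, (S.τ (V.tr X (u' m * y)) * s m) • E.u (π m) := by
    rw [← hPi, h3, map_sum]
    exact Finset.sum_congr rfl fun m _ => by rw [S.smul, hπ, smul_smul]
  have h5 : V.tr X (u' (π l) * Pi (S.σ X y)) = V.tr X (u' (π l) * S.σ X y) := by
    rw [h3, Finset.mul_sum, map_sum, Finset.sum_eq_single (π l)]
    · rw [mul_smul_comm, map_smul, h1, if_pos rfl, smul_eq_mul, mul_one]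
    · intro m _ hm
      rw [mul_smul_comm, map_smul, h1, if_neg (Ne.symm hm), smul_zero]
    · intro h; exact absurd (Finset.mem_univ _) h
  rw [← h5, h4, Finset.mul_sum, map_sum, Finset.sum_eq_single l]
  · rw [mul_smul_comm, map_smul, h1, if_pos rfl, smul_eq_mul, mul_one,
      mul_comm (S.τ _), inv_mul_cancel_left₀ (hs l)]
  · intro m _ hm
    rw [mul_smul_comm, map_smul, h1, if_neg (fun h => hm (π.injective h.symm)), smul_zero]
  · intro h; exact absurd (Finset.mem_univ _) h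

/-- A polarisation. -/
structure IsPol (E : EigMot V X w Pi F ι) (P Q : V.H X →ₗ[V.K] V.H X) : Prop where
  aP : P ∈ AOp V X X
  aQ : Q ∈ AOp V X X
  dual : ∀ x y, V.tr X (P (Pi x) * y) = V.tr X (P (Pi x) * Pi y)
  inv : ∀ x, Q (P (Pi x)) = Pi x

variable {E} {P Q : V.H X →ₗ[V.K] V.H X}

/-- **The letters and their conjugates.** -/
theorem IsPol.pairs [DecidableEq ι] (h : E.IsPol P Q) {u' : ι → V.H X}
    (h0 : ∀ l, u' l ∈ V.gr X (2 * X.dim - w))
    (h1 : ∀ l m, V.tr X (u' l * E.u m) = if l = m then 1 else 0)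
    (h2 : ∀ l, ER (u' l) (E.u l))
    (h3 : ∀ x, Pi x = ∑ l, V.tr X (u' l * x) • E.u l)
    (S : SemiLin V) (hsurj : ∀ x : V.H X, ∃ y, S.σ X y = x)
    (htr : ∀ x, V.tr X (S.σ X x) = S.τ (V.tr X x)) (hPi : ∀ x, S.σ X (Pi x) = Pi (S.σ X x))
    {κ : Equiv.Perm ι} (hκκ : ∀ l, κ (κ l) = l)
    (hκ : ∀ l, ∃ s : V.K, s ≠ 0 ∧ S.σ X (E.u l) = s • E.u (κ l))
    (hR : ∀ l, V.tr X (P (E.u l) * E.u (κ l)) ≠ 0) :
    (∀ l, ER (E.u (κ l)) (E.u l)) ∧ ∀ l, ER (u' (κ l)) (u' l) := by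
  have hu : ∀ l, Hom (E.u l) := fun l => ⟨w, E.pi l ▸ E.gr _⟩
  have hu' : ∀ l, Hom (u' l) := fun l => ⟨_, h0 l⟩
  have hκ' := E.gal_dual h1 h3 S hsurj htr hPi hκ
  -- the matrix of the polarisation
  have hPu : ∀ l, P (E.u l) = ∑ m, V.tr X (P (E.u l) * E.u m) • u' m := by
    intro l
    apply V.tr_ext
    intro y
    have h4 := h.dual (E.u l) y
    rw [E.pi] at h4
    rw [h4, h3 y, Finset.mul_sum, map_sum, Finset.sum_mul, map_sum]
    refine Finset.sum_congr rfl fun m _ => ?_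
    rw [mul_smul_comm, map_smul, smul_mul_assoc, map_smul, smul_eq_mul, smul_eq_mul, mul_comm]
  have hPu' : ∀ l, Hom (P (E.u l)) := by
    intro l
    refine ⟨2 * X.dim - w, ?_⟩
    rw [hPu l]
    exact Submodule.sum_mem _ fun m _ => Submodule.smul_mem _ _ (h0 m)
  have hQu : ∀ m, Hom (Pi (Q (u' m))) := fun m => ⟨w, E.gr _⟩
  have key' : ∀ l, ER (u' l) (u' (κ l)) := by
    intro l
    have h4 : ER (u' l) (P (E.u l)) := (h2 l).op (hu' l) (hu l) h.aP (hPu' l)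
    have h5 : ER (E.u (κ l)) (u' (κ l)) := (h2 (κ l)).swap (hu' _) (hu _)
    refine h4.comp (hu' l) (hPu' l) (hu _) (hu' _) h5 ?_
    obtain ⟨s, hs, e⟩ := comm_of_hom (hu (κ l)) (hPu' l)
    rw [e, map_smul]
    exact smul_ne_zero hs (hR l)
  have hb : ∀ l, ∃ b, ER (E.u b) (E.u l) := by
    intro l
    have h4 : V.tr X (u' l * Pi (Q (P (Pi (E.u l))))) = 1 := by
      rw [h.inv, E.pi, E.pi, h1, if_pos rfl]
    rw [E.pi, hPu l, map_sum, map_sum, Finset.mul_sum, map_sum] at h4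
    obtain ⟨m, hm⟩ : ∃ m, V.tr X (u' l * Pi (Q (u' m))) ≠ 0 := by
      by_contra hcon
      push Not at hcon
      rw [Finset.sum_eq_zero fun m _ => by
        rw [map_smul, map_smul, mul_smul_comm, map_smul, hcon m, smul_zero]] at h4
      exact zero_ne_one h4
    refine ⟨m, ?_⟩
    have h5 : ER (E.u m) (u' m) := (h2 m).swap (hu' _) (hu _)
    have h6 : ER (E.u m) (Pi (Q (u' m))) :=
      h5.op (F := Pi ∘ₗ Q) (hu m) (hu' m) (AOp.comp E.aPi h.aQ) (hQu m)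
    exact h6.comp (hu m) (hQu m) (hu' l) (hu l) (h2 l) hm
  have key : ∀ l, ER (E.u l) (E.u (κ l)) := by
    intro l
    obtain ⟨b, hb⟩ := hb l
    have h4 : ER (E.u l) (E.u b) := hb.swap (hu _) (hu _)
    have h5 : V.tr X (u' b * E.u b) ≠ 0 := by
      rw [h1, if_pos rfl]
      exact one_ne_zero
    have h6 : ER (E.u l) (u' (κ b)) := h4.comp (hu l) (hu b) (hu' b) (hu' _) (key' b) h5
    have h7 : ER (u' (κ b)) (E.u l) := h6.swap (hu _) (hu' _)
    obtain ⟨s, hs, e⟩ := hκ' (κ b)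
    obtain ⟨t, ht, e'⟩ := hκ l
    rw [hκκ] at e
    have h8 : ER (u' b) (E.u (κ l)) := h7.gal S hs ht e e'
    exact h4.comp (hu l) (hu b) (hu' b) (hu _) h8 h5
  exact ⟨fun l => (key l).swap (hu _) (hu _), fun l => (key' l).swap (hu' _) (hu' _)⟩

end EigMot

end Pool.Agent.Helper70Rk
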