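import Pool.Agent.Helper70_rk2.Pol
import Pool.Agent.Helper70_rk1.Types

/-!
# Motives of CM type: the cohomology with complex coefficients
-/

open CategoryTheory AlgebraicGeometry TensorProduct

universe u v

namespace Pool.Agent.Helper70Rk

set_option linter.unusedSectionVars false
set_option linter.unusedVariables false

open Pool.Agent.H914 Pool.Agent.H914.VarClass Pool.Agent.H914.VarClass.Obj
  Pool.Agent.H914.WeilCohomology Pool.Agent.Y121.AHS Pool.Agent.R908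

variable {k : Type u} [Field k] {𝒱 : VarClass k} {ops : CycleOps 𝒱}

section Gen

variable {V : WeilCohomology.{u, v} ops} {X Y Z : 𝒱.Obj} {ι : Type} [Fintype ι] {w : ℕ}
  {Pi F : V.H X →ₗ[V.K] V.H X} (E : EigMot V X w Pi F ι)

/-- The eigenvectors of the motive. -/
lemma EigMot.uni {x : V.H X} (hx : Pi x = x) (h0 : x ≠ 0) {c : V.K} (h : F x = c • x) :
    ∃ l, E.mu l = c ∧ ∃ s : V.K, s ≠ 0 ∧ x = s • E.u l := by
  classical
  obtain ⟨u', h1, h2, h3, h4⟩ := E.exists_dual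
  have e1 : x = ∑ l, V.tr X (u' l * x) • E.u l := by
    conv_lhs => rw [← hx]
    exact h4 x
  have e2 : ∀ l, V.tr X (u' l * F x) = V.tr X (u' l * x) * E.mu l := by
    intro l
    conv_lhs => rw [e1]
    rw [map_sum, Finset.mul_sum, map_sum, Finset.sum_eq_single l]
    · rw [map_smul, E.eig, mul_smul_comm, map_smul, mul_smul_comm, map_smul, h2, if_pos rfl,
        smul_eq_mul, smul_eq_mul, mul_one]
    · intro m _ hm
      rw [map_smul, E.eig, mul_smul_comm, map_smul, mul_smul_comm, map_smul, h2,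
        if_neg (Ne.symm hm), smul_zero, smul_zero]
    · intro h; exact absurd (Finset.mem_univ _) h
  have e3 : ∀ l, V.tr X (u' l * x) ≠ 0 → E.mu l = c := by
    intro l hl
    have h5 := e2 l
    rw [h, mul_smul_comm, map_smul, smul_eq_mul, mul_comm] at h5
    exact (mul_left_cancel₀ hl h5).symm
  obtain ⟨l, hl⟩ : ∃ l, V.tr X (u' l * x) ≠ 0 := by
    by_contra hcon
    push Not at hcon
    apply h0
    rw [e1]
    exact Finset.sum_eq_zero fun l _ => by rw [hcon l, zero_smul]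
  refine ⟨l, e3 l hl, _, hl, ?_⟩
  conv_lhs => rw [e1]
  rw [Finset.sum_eq_single l]
  · intro m _ hm
    by_cases h5 : V.tr X (u' m * x) = 0
    · rw [h5, zero_smul]
    · exact absurd (E.inj ((e3 m h5).trans (e3 l hl).symm)) hm
  · intro h; exact absurd (Finset.mem_univ _) h

end Gen

variable {T : HodgeTheory ops} {X Y A B : 𝒱.Obj}

section Semi

lemma vc_induction {P : (VC T).H X → Prop} (h0 : P 0) (hadd : ∀ x y, P x → P y → P (x + y))
    (hsm : ∀ (l : ℂ) (a : T.W.H X), P ((show (VC T).K from l) • em T a)) (x : (VC T).H X) :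
    P x := by
  refine tmul_induction (L := ℂ) (K := T.W.K) (A := T.W.H X)
    (P := fun x => P (show (VC T).H X from x)) h0 (fun x y => hadd x y) ?_ x
  intro l a
  have h1 : l • ((1 : ℂ) ⊗ₜ[T.W.K] a) = l ⊗ₜ[T.W.K] a := by
    rw [TensorProduct.smul_tmul', smul_eq_mul, mul_one]
  have h2 : P (l • ((1 : ℂ) ⊗ₜ[T.W.K] a) : ℂ ⊗[T.W.K] T.W.H X) := hsm l a
  rwa [h1] at h2

lemma tr_em (a : T.W.H X) : (VC T).tr X (em T a) = algebraMap T.W.K ℂ (T.W.tr X a) := by
  have h1 : formBase ℂ (T.W.tr X) ((1 : ℂ) ⊗ₜ[T.W.K] a) = algebraMap T.W.K ℂ (T.W.tr X a) := by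
    rw [formBase_tmul, one_mul]
  exact h1

lemma push_em (g : X ⟶ Y) (a : T.W.H X) : (VC T).push g (em T a) = em T (T.W.push g a) :=
  LinearMap.baseChange_tmul _ _ _

lemma sC_tr (τ : ℂ ≃+* ℂ) (x : (VC T).H X) :
    (VC T).tr X ((sC T τ).σ X x) = (sC T τ).τ ((VC T).tr X x) := by
  refine vc_induction (P := fun x => (VC T).tr X ((sC T τ).σ X x) =
    (sC T τ).τ ((VC T).tr X x)) ?_ ?_ ?_ x
  · rw [map_zero, map_zero, map_zero]
  · intro x y hx hy
    rw [map_add, map_add, map_add, map_add, hx, hy]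
  · intro l a
    rw [(sC T τ).smul, sC_em, map_smul, map_smul, smul_eq_mul, smul_eq_mul, map_mul, tr_em]
    congr 1
    exact ((galC T τ).commutes _).symm

lemma sC_push (τ : ℂ ≃+* ℂ) (g : X ⟶ Y) (x : (VC T).H X) :
    (sC T τ).σ Y ((VC T).push g x) = (VC T).push g ((sC T τ).σ X x) := by
  refine vc_induction (P := fun x => (sC T τ).σ Y ((VC T).push g x) =
    (VC T).push g ((sC T τ).σ X x)) ?_ ?_ ?_ x
  · rw [map_zero, map_zero, map_zero, map_zero]
  · intro x y hx hy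
    rw [map_add, map_add, map_add, map_add, hx, hy]
  · intro l a
    rw [(sC T τ).smul, sC_em, LinearMap.map_smul, LinearMap.map_smul, push_em, (sC T τ).smul,
      sC_em]

lemma sC_corr (τ : ℂ ≃+* ℂ) (z : (X.prod Y).Cycles) (x : (VC T).H X) :
    (sC T τ).σ Y ((VC T).corr ((VC T).cl _ z) x) =
      (VC T).corr ((VC T).cl _ z) ((sC T τ).σ X x) := by
  rw [corr_apply, corr_apply, sC_push, (sC T τ).mul, (sC T τ).cl, (sC T τ).map]

lemma sC_surj (τ : ℂ ≃+* ℂ) (x : (VC T).H X) : ∃ y, (sC T τ).σ X y = x := by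
  refine vc_induction (P := fun x => ∃ y, (sC T τ).σ X y = x) ⟨0, map_zero _⟩ ?_ ?_ x
  · rintro _ _ ⟨x, rfl⟩ ⟨y, rfl⟩
    exact ⟨x + y, map_add _ _ _⟩
  · intro l a
    refine ⟨(show (VC T).K from τ.symm l) • em T a, ?_⟩
    rw [(sC T τ).smul, sC_em]
    congr 1
    exact τ.apply_symm_apply l

end Semi

/-- The operator given by a cycle on the product. -/
noncomputable abbrev opc (T : HodgeTheory ops) (z : (X.prod Y).Cycles) :
    (VC T).H X →ₗ[(VC T).K] (VC T).H Y := (VC T).corr ((VC T).cl _ z)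

/-- A polarised motive of CM type. -/
structure CMM (T : HodgeTheory ops) (X : 𝒱.Obj) (w : ℕ) (π P Q f : (X.prod X).Cycles)
    (R : Finset ℂ) (e : ℂ → ℤ) : Prop where
  cyc : (X.prod X).IsCyc X.dim π
  cycP : ∃ p, p + w = 2 * X.dim ∧ (X.prod X).IsCyc p P
  cycQ : ∃ p, (X.prod X).IsCyc p Q
  cycf : ∃ p, (X.prod X).IsCyc p f
  deg : ∀ x, opc T π x ∈ (VC T).gr X w
  dual : ∀ x y, (VC T).tr X (opc T P (opc T π x) * y) =
    (VC T).tr X (opc T P (opc T π x) * opc T π y)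
  inv : ∀ x, opc T Q (opc T P (opc T π x)) = opc T π x
  conj : ∀ (p q : ℤ) x, opc T π x = x → x ∈ tp T X p q → (sC T cc).σ X x ∈ tp T X q p
  riemann : ∀ (p q : ℤ) x, opc T π x = x → x ∈ tp T X p q → x ≠ 0 →
    (VC T).tr X (opc T P x * (sC T cc).σ X x) ≠ 0
  eig : ∃ u : ℂ → (VC T).H X, (∀ z ∈ R, u z ≠ 0 ∧ opc T π (u z) = u z ∧
    opc T f (u z) = (show (VC T).K from z) • u z ∧ ∃ p q : ℤ, u z ∈ tp T X p q ∧ e z = p - q) ∧
    ∀ x, ∃ c : ℂ → ℂ, opc T π x = ∑ z ∈ R, (show (VC T).K from c z) • u z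

/-- The index set. -/
abbrev Ix (R : Finset ℂ) : Type := {z : ℂ // z ∈ R}

namespace CMM

variable {w : ℕ} {π P Q f : (X.prod X).Cycles} {R : Finset ℂ} {e : ℂ → ℤ}
  (M : CMM T X w π P Q f R e)

include M in
/-- The system of eigenvectors. -/
theorem exists_eig : ∃ E : EigMot (VC T) X w (opc T π) (opc T f) (Ix R),
    (∀ l, E.mu l = (show (VC T).K from l.1)) ∧
    ∀ l, ∃ p q : ℤ, E.u l ∈ tp T X p q ∧ e l.1 = p - q := by
  obtain ⟨u, hu, hs⟩ := M.eig
  obtain ⟨p, hp, hP⟩ := M.cycP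
  obtain ⟨f', hf⟩ := M.cycf
  refine ⟨{
    u := fun l => u l.1
    mu := fun l => l.1
    inj := Subtype.val_injective
    ne := fun l => (hu l.1 l.2).1
    pi := fun l => (hu l.1 l.2).2.1
    eig := fun l => (hu l.1 l.2).2.2.1
    span := fun x => ?_
    aPi := AOp.cyc M.cyc
    aF := AOp.cyc hf
    gr := M.deg
    gr0 := fun j hj x hx => ?_
    le := by omega }, fun _ => rfl, fun l => (hu l.1 l.2).2.2.2⟩
  · obtain ⟨c, hc⟩ := hs x
    refine ⟨fun l => c l.1, ?_⟩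
    rw [hc, ← Finset.sum_coe_sort]
  · have h1 := (VC T).corr_isHom ((VC T).cl_mem M.cyc) j x (by rw [grZ_natCast]; exact hx)
    rw [sub_self, mul_zero, add_zero, grZ_natCast] at h1
    have h3 := ((VC T).isInternal X).submodule_iSupIndep.pairwiseDisjoint hj
    exact (Submodule.disjoint_def.1 h3) _ h1 (M.deg x)

end CMM

end Pool.Agent.Helper70Rk
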