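import Pool.Agent.Helper70_rk2.ERel

/-!
# Words and universally algebraic types
-/

open CategoryTheory AlgebraicGeometry

universe u v

namespace Pool.Agent.Helper70Rk

set_option linter.unusedSectionVars false
set_option linter.unusedVariables false

open Pool.Agent.H914 Pool.Agent.H914.VarClass Pool.Agent.H914.VarClass.Obj
  Pool.Agent.H914.WeilCohomology Pool.Agent.R908

variable {k : Type u} [Field k] {𝒱 : VarClass k} {ops : CycleOps 𝒱}
  {W : WeilCohomology.{u, v} ops} {X Y Z : 𝒱.Obj} {ι : Type}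

/-- The product of homogeneous classes does not depend on the order, up to sign. -/
lemma word_perm' {l l' : List (W.H Z)} (h : l.Perm l') (hl : ∀ x ∈ l, Hom x) :
    ∃ s : W.K, s ≠ 0 ∧ l.prod = s • l'.prod := by
  induction h with
  | nil => exact ⟨1, one_ne_zero, (one_smul _ _).symm⟩
  | cons x _ ih =>
    obtain ⟨s, hs, e⟩ := ih fun y hy => hl y (List.mem_cons_of_mem _ hy)
    exact ⟨s, hs, by rw [List.prod_cons, List.prod_cons, e, mul_smul_comm]⟩
  | swap x y l =>
    obtain ⟨s, hs, e⟩ := comm_of_hom (hl y (by simp)) (hl x (by simp))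
    refine ⟨s, hs, ?_⟩
    rw [List.prod_cons, List.prod_cons, List.prod_cons, List.prod_cons, ← mul_assoc, e,
      smul_mul_assoc, mul_assoc]
  | trans h1 _ ih1 ih2 =>
    obtain ⟨s, hs, e⟩ := ih1 hl
    obtain ⟨s', hs', e'⟩ := ih2 fun y hy => hl y (h1.mem_iff.2 hy)
    exact ⟨s * s', mul_ne_zero hs hs', by rw [e, e', smul_smul]⟩

/-- The word given by a list of morphisms and letters. -/
noncomputable def wl (u : ι → W.H X) (L : List ((Y ⟶ X) × ι)) : W.H Y :=
  (L.map fun b => W.map b.1 (u b.2)).prod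

lemma wl_hom {u : ι → W.H X} (hu : ∀ l, Hom (u l)) (L : List ((Y ⟶ X) × ι)) : Hom (wl u L) := by
  induction L with
  | nil => exact Hom.one
  | cons b L ih =>
    rw [wl, List.map_cons, List.prod_cons]
    exact ((hu b.2).map b.1).mul ih

lemma wl_append (u : ι → W.H X) (L L' : List ((Y ⟶ X) × ι)) :
    wl u (L ++ L') = wl u L * wl u L' := by
  rw [wl, List.map_append, List.prod_append]
  rfl

lemma wl_cons (u : ι → W.H X) (b : (Y ⟶ X) × ι) (L : List ((Y ⟶ X) × ι)) :
    wl u (b :: L) = W.map b.1 (u b.2) * wl u L := by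
  rw [wl, List.map_cons, List.prod_cons]
  rfl

/-- The pull-back of the letters. -/
def pl (ψ : Z ⟶ Y) (L : List ((Y ⟶ X) × ι)) : List ((Z ⟶ X) × ι) :=
  L.map fun b => (ψ ≫ b.1, b.2)

lemma pl_snd (ψ : Z ⟶ Y) (L : List ((Y ⟶ X) × ι)) :
    (pl ψ L).map Prod.snd = L.map Prod.snd := by
  rw [pl, List.map_map]
  rfl

lemma map_wl (u : ι → W.H X) (ψ : Z ⟶ Y) (L : List ((Y ⟶ X) × ι)) :
    W.map ψ (wl u L) = wl u (pl ψ L) := by
  rw [wl, wl, pl, map_list_prod, List.map_map, List.map_map]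
  congr 1
  refine List.map_congr_left fun b _ => ?_
  rw [Function.comp_apply, Function.comp_apply, W.map_comp]

/-- Algebraic external products of words, from those of letters. -/
lemma er_list {x y : ι → W.H X} (hx : ∀ l, Hom (x l)) (hy : ∀ l, Hom (y l))
    (L : List ((Y ⟶ X) × ι)) (h : ∀ b ∈ L, ER (x b.2) (y b.2)) : ER (wl x L) (wl y L) := by
  induction L with
  | nil =>
    have e : ext (wl x ([] : List ((Y ⟶ X) × ι))) (wl y ([] : List ((Y ⟶ X) × ι))) = 1 := by
      rw [ext, wl, wl, List.map_nil, List.map_nil, List.prod_nil, map_one, map_one, one_mul]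
    rw [ER, e]
    exact Alg.one
  | cons b L ih =>
    have h1 := ih fun b hb => h b (List.mem_cons_of_mem _ hb)
    have h2 := Alg.map (Obj.lift (fst Y Y ≫ b.1) (snd Y Y ≫ b.1)) (h b (List.mem_cons_self ..))
    rw [ext, map_mul, ← W.map_comp, ← W.map_comp, Obj.lift_fst, Obj.lift_snd, W.map_comp,
      W.map_comp] at h2
    obtain ⟨s, hs, e⟩ := comm_of_hom ((wl_hom hx L).map (fst Y Y))
      (((hy b.2).map b.1).map (snd Y Y))
    have e1 : ext (wl x (b :: L)) (wl y (b :: L)) = s • ((W.map (fst Y Y) (W.map b.1 (x b.2)) *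
        W.map (snd Y Y) (W.map b.1 (y b.2))) * ext (wl x L) (wl y L)) := by
      rw [wl_cons, wl_cons, ext, ext, map_mul, map_mul, mul_assoc,
        ← mul_assoc (W.map (fst Y Y) (wl x L)), e, smul_mul_assoc, mul_smul_comm, mul_assoc,
        mul_assoc]
    rw [ER, e1]
    exact Submodule.smul_mem _ _ (Alg.mul h2 h1)

/-- The words with letters of the types given by `s` are linear combinations of classes of
cycles. -/
def UW (u : ι → W.H X) (s : Multiset ι) : Prop :=
  ∀ (Z : 𝒱.Obj) (L : List ((Z ⟶ X) × ι)), ((L.map Prod.snd : List ι) : Multiset ι) = s →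
    wl u L ∈ Alg W Z

variable {u : ι → W.H X}

lemma UW.zero : UW u 0 := by
  intro Z L hL
  have h1 : L = [] := by
    rcases L with _ | ⟨b, L⟩
    · rfl
    · exact absurd (congrArg Multiset.card hL) (by simp)
  rw [h1]
  exact Alg.one

theorem UW.add (hu : ∀ l, Hom (u l)) {s t : Multiset ι} (hs : UW u s) (ht : UW u t) :
    UW u (s + t) := by
  intro Z L hL
  induction s using Quotient.inductionOn with | _ ls =>
  induction t using Quotient.inductionOn with | _ lt =>
  have hL' : (L.map Prod.snd).Perm (ls ++ lt) := Multiset.coe_eq_coe.1 hL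
  obtain ⟨L₁, hL₁, h1⟩ := exists_perm_of_map hL'
  obtain ⟨L₂, L₃, rfl, h2, h3⟩ := List.map_eq_append_iff.1 h1
  obtain ⟨ε, hε, h4⟩ := word_perm' (hL₁.map fun b => W.map b.1 (u b.2)) (by
    intro y hy
    obtain ⟨b, _, rfl⟩ := List.mem_map.1 hy
    exact (hu _).map _)
  rw [wl, h4, List.map_append, List.prod_append]
  exact Submodule.smul_mem _ _ (Alg.mul (hs Z L₂ (by rw [h2]; rfl)) (ht Z L₃ (by rw [h3]; rfl)))

/-- Cancellation. -/
theorem UW.cancel {l m : ι} {y : W.H (X.prod X)} (hy : y ∈ Alg W (X.prod X))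
    (ht : W.tr (X.prod X) (y * ext (u l) (u m)) ≠ 0) {s : Multiset ι}
    (h : UW u (s + {l, m})) : UW u s := by
  intro Z T hT
  have h1 := h ((X.prod X).prod Z) ((fst (X.prod X) Z ≫ fst X X, l) ::
    (fst (X.prod X) Z ≫ snd X X, m) :: pl (snd (X.prod X) Z) T) (by
      rw [List.map_cons, List.map_cons, pl_snd, ← Multiset.cons_coe, ← Multiset.cons_coe, hT,
        Multiset.insert_eq_cons, Multiset.add_cons, add_comm s, Multiset.singleton_add])
  rw [wl_cons, wl_cons, ← mul_assoc, ← map_wl] at h1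
  have e1 : W.map (fst (X.prod X) Z ≫ fst X X) (u l) * W.map (fst (X.prod X) Z ≫ snd X X) (u m) =
      W.map (fst (X.prod X) Z) (ext (u l) (u m)) := by
    rw [ext, map_mul, W.map_comp, W.map_comp]
  change W.map (fst (X.prod X) Z ≫ fst X X) (u l) * W.map (fst (X.prod X) Z ≫ snd X X) (u m) *
    W.map (snd (X.prod X) Z) (wl u T) ∈ _ at h1
  rw [e1] at h1
  have h2 := Alg.push (snd (X.prod X) Z) (Alg.mul (Alg.map (fst (X.prod X) Z) hy) h1)
  rw [← mul_assoc, ← map_mul, W.push_snd] at h2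
  have h3 := Submodule.smul_mem _ (W.tr (X.prod X) (y * ext (u l) (u m)))⁻¹ h2
  rwa [smul_smul, inv_mul_cancel₀ ht, one_smul] at h3

/-- Conjugates. -/
theorem UW.gal (S : SemiLin W) {π : ι ≃ ι}
    (hπ : ∀ l, ∃ s : W.K, s ≠ 0 ∧ S.σ X (u l) = s • u (π l)) {s : Multiset ι} (hs : UW u s) :
    UW u (s.map π) := by
  intro Z L hL
  have h1 := hs Z (L.map fun b => (b.1, π.symm b.2)) (by
    rw [List.map_map]
    have e : (Prod.snd ∘ fun b : (Z ⟶ X) × ι => (b.1, π.symm b.2)) = π.symm ∘ Prod.snd := rfl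
    rw [e, ← List.map_map, ← Multiset.map_coe, hL, Multiset.map_map]
    simp)
  rw [wl, List.map_map] at h1
  have h2 := σ_alg S h1
  rw [σ_prod, List.map_map] at h2
  choose c hc e using hπ
  obtain ⟨r, hr, h3⟩ := prod_smul (K := W.K) (x := S.σ Z ∘ ((fun b : (Z ⟶ X) × ι =>
      W.map b.1 (u b.2)) ∘ fun b => (b.1, π.symm b.2)))
    (y := fun b => W.map b.1 (u b.2)) (s := fun b => c (π.symm b.2)) (fun b => hc _) (fun b => by
      rw [Function.comp_apply, Function.comp_apply, S.map, e, map_smul, Equiv.apply_symm_apply]) L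
  rw [h3] at h2
  have h4 := Submodule.smul_mem _ r⁻¹ h2
  rwa [smul_smul, inv_mul_cancel₀ hr, one_smul] at h4

/-- The conjugate of a word. -/
lemma σ_wl (S : SemiLin W) {π : ι ≃ ι}
    (hπ : ∀ l, ∃ s : W.K, s ≠ 0 ∧ S.σ X (u l) = s • u (π l)) (L : List ((Y ⟶ X) × ι)) :
    ∃ r : W.K, r ≠ 0 ∧ S.σ Y (wl u L) = r • wl u (L.map fun b => (b.1, π b.2)) := by
  rw [wl, σ_prod, List.map_map, wl, List.map_map]
  choose c hc e using hπ
  exact prod_smul (K := W.K) (s := fun b => c b.2) (fun b => hc _) (fun b => by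
      rw [Function.comp_apply, Function.comp_apply, S.map, e, map_smul]) L

/-! ### Systems of words -/

/-- A variety `Y` which is a product of copies of `X`, with words indexed by `I`. -/
structure WS (X Y : 𝒱.Obj) (ι I : Type) where
  /-- the letters of the words -/
  crd : I → List ((Y ⟶ X) × ι)
  lift : ∀ {Z : 𝒱.Obj} (i : I) (T : List ((Z ⟶ X) × ι)),
    T.map Prod.snd = (crd i).map Prod.snd → ∃ ψ : Z ⟶ Y, T = pl ψ (crd i)
  /-- the action of maps of the letters -/
  op : (ι → ι) → I → I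
  op_crd : ∀ g i, crd (op g i) = (crd i).map fun b => (b.1, g b.2)

namespace WS

variable {I : Type} (S : WS X Y ι I)

/-- The word. -/
noncomputable def wd (u : ι → W.H X) (i : I) : W.H Y := wl u (S.crd i)

/-- The type of a word. -/
def ty (i : I) : Multiset ι := ((S.crd i).map Prod.snd : List ι)

lemma ty_op (g : ι → ι) (i : I) : S.ty (S.op g i) = (S.ty i).map g := by
  rw [ty, ty, S.op_crd, List.map_map, Multiset.map_coe, List.map_map]
  rfl

lemma wd_hom {u : ι → W.H X} (hu : ∀ l, Hom (u l)) (i : I) : Hom (S.wd u i) := wl_hom hu _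

lemma alg {i : I} (h : UW u (S.ty i)) : S.wd u i ∈ Alg W Y := h Y (S.crd i) rfl

/-- Algebraic external products of words are universally algebraic. -/
theorem uw (hu : ∀ l, Hom (u l)) {Y' : 𝒱.Obj} {I' : Type} {S' : WS X Y' ι I'} {i : I} {i' : I'}
    (h : ER (S.wd u i) (S'.wd u i')) : UW u (S.ty i + S'.ty i') := by
  intro Z T hT
  have hT' : (T.map Prod.snd).Perm ((S.crd i).map Prod.snd ++ (S'.crd i').map Prod.snd) :=
    Multiset.coe_eq_coe.1 hT
  obtain ⟨T₁, hT₁, h1⟩ := exists_perm_of_map hT'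
  obtain ⟨T₂, T₃, rfl, h2, h3⟩ := List.map_eq_append_iff.1 h1
  obtain ⟨ε, hε, h4⟩ := word_perm' (hT₁.map fun b => W.map b.1 (u b.2)) (by
    intro y hy
    obtain ⟨b, _, rfl⟩ := List.mem_map.1 hy
    exact (hu _).map _)
  obtain ⟨ψ, rfl⟩ := S.lift i T₂ h2
  obtain ⟨ψ', rfl⟩ := S'.lift i' T₃ h3
  have h5 := Alg.map (Obj.lift ψ ψ') h
  rw [ext, map_mul, ← W.map_comp, ← W.map_comp, Obj.lift_fst, Obj.lift_snd, wd, wd, map_wl,
    map_wl, ← wl_append] at h5
  rw [wl, h4]
  exact Submodule.smul_mem _ _ h5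

/-- Words and conjugated words. -/
lemma er {x y : ι → W.H X} {g : ι → ι} (hx : ∀ l, Hom (x l)) (hy : ∀ l, Hom (y l))
    (h : ∀ l, ER (x (g l)) (y l)) (i : I) : ER (S.wd x (S.op g i)) (S.wd y i) := by
  have e : S.wd x (S.op g i) = wl (fun l => x (g l)) (S.crd i) := by
    rw [wd, S.op_crd, wl, List.map_map]
    rfl
  rw [e]
  exact er_list (fun l => hx (g l)) hy _ fun b _ => h b.2

/-- The words for the two families are dual to each other. -/
def Orth (x y : ι → W.H X) : Prop :=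
  ∀ i j, (i ≠ j → W.tr Y (S.wd x i * S.wd y j) = 0) ∧ W.tr Y (S.wd x i * S.wd y i) ≠ 0

/-- The words of length one. -/
noncomputable def one (X : 𝒱.Obj) (ι : Type) : WS X X ι ι where
  crd l := [(𝟙 X, l)]
  lift := by
    intro Z l T h
    rw [List.map_singleton] at h
    obtain ⟨a, T', rfl, ha, h2⟩ := List.map_eq_cons_iff.1 h
    rw [List.map_eq_nil_iff] at h2
    subst h2
    refine ⟨a.1, ?_⟩
    have e : a.1 ≫ 𝟙 X = a.1 := Category.comp_id _
    rw [pl, List.map_singleton, e, ← ha]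
  op g := g
  op_crd g l := rfl

lemma one_wd (u : ι → W.H X) (l : ι) : (one X ι).wd u l = u l := by
  change ([((𝟙 X : X ⟶ X), l)].map fun b => W.map b.1 (u b.2)).prod = u l
  rw [List.map_singleton, List.prod_singleton]
  exact W.map_id X _

/-- Products. -/
noncomputable def prod : WS X (Y.prod X) ι (I × ι) where
  crd i := pl (fst Y X) (S.crd i.1) ++ [(snd Y X, i.2)]
  lift := by
    intro Z i T h
    rw [List.map_append, pl_snd] at h
    obtain ⟨T₁, T₂, rfl, h1, h2⟩ := List.map_eq_append_iff.1 h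
    obtain ⟨ψ, rfl⟩ := S.lift i.1 T₁ h1
    rw [List.map_singleton] at h2
    obtain ⟨a, T', rfl, ha, h3⟩ := List.map_eq_cons_iff.1 h2
    rw [List.map_eq_nil_iff] at h3
    subst h3
    refine ⟨Obj.lift ψ a.1, ?_⟩
    rw [pl, pl, pl, List.map_append, List.map_map, List.map_singleton]
    congr 1
    · refine List.map_congr_left fun b _ => ?_
      rw [Function.comp_apply]
      have e : Obj.lift ψ a.1 ≫ fst Y X ≫ b.1 = ψ ≫ b.1 := by
        rw [← Category.assoc, Obj.lift_fst]
      rw [e]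
    · rw [Obj.lift_snd, ← ha]
  op g i := (S.op g i.1, g i.2)
  op_crd g i := by
    rw [S.op_crd, List.map_append, pl, pl, List.map_map, List.map_map, List.map_singleton]
    rfl

lemma prod_wd (u : ι → W.H X) (i : I × ι) : S.prod.wd u i = ext (S.wd u i.1) (u i.2) := by
  have e : S.prod.wd u i = wl u (pl (fst Y X) (S.crd i.1) ++ [(snd Y X, i.2)]) := rfl
  rw [e, wl_append, ← map_wl, ext]
  congr 1
  rw [wl, List.map_singleton, List.prod_singleton]

lemma one_orth {x y : ι → W.H X} (h : ∀ l m, l ≠ m → W.tr X (x l * y m) = 0)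
    (h' : ∀ l, W.tr X (x l * y l) ≠ 0) : (one X ι).Orth x y := by
  intro i j
  rw [one_wd, one_wd, one_wd]
  exact ⟨h i j, h' i⟩

lemma prod_orth {x y : ι → W.H X} (hx : ∀ l, Hom (x l)) (hy : ∀ l, Hom (y l))
    (hS : S.Orth x y) (h : ∀ l m, l ≠ m → W.tr X (x l * y m) = 0)
    (h' : ∀ l, W.tr X (x l * y l) ≠ 0) : S.prod.Orth x y := by
  intro i j
  rw [prod_wd, prod_wd, prod_wd]
  constructor
  · intro hij
    obtain ⟨s, hs, e⟩ := tr_ext (a := S.wd x i.1) (c := S.wd y j.1) (b := x i.2) (d := y j.2)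
      (hx _) (S.wd_hom hy _)
    rw [e]
    by_cases h1 : i.1 = j.1
    · have h2 : i.2 ≠ j.2 := fun h2 => hij (Prod.ext h1 h2)
      rw [h _ _ h2, mul_zero, mul_zero]
    · rw [(hS _ _).1 h1, zero_mul, mul_zero]
  · obtain ⟨s, hs, e⟩ := tr_ext (a := S.wd x i.1) (c := S.wd y i.1) (b := x i.2) (d := y i.2)
      (hx _) (S.wd_hom hy _)
    rw [e]
    exact mul_ne_zero hs (mul_ne_zero (hS i.1 i.1).2 (h' _))

end WS

/-- Pairs. -/
theorem uw_pair (hu : ∀ l, Hom (u l)) {l m : ι} (h : ER (u l) (u m)) : UW u {l, m} := by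
  have h1 := (WS.one X ι).uw hu (S' := WS.one X ι) (i := l) (i' := m) (by
    rw [WS.one_wd, WS.one_wd]; exact h)
  exact h1

end Pool.Agent.Helper70Rk
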